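import Pool.Agent.Helper805.Nuc.Ext
set_option autoImplicit false
open scoped TensorProduct

/-! Alternative rings tensored with an exterior algebra are super-alternative. -/

namespace Pool.Agent.Helper805.Nuc.Tens
open Pool.Agent.Helper805.Nuc.Ext

/-- associator -/
def as {R : Type} [NonUnitalNonAssocRing R] (a b c : R) : R := (a * b) * c - a * (b * c)
/-- commutator -/
def br {R : Type} [NonUnitalNonAssocRing R] (a b : R) : R := a * b - b * a
/-- Jordan product -/
def jo {R : Type} [NonUnitalNonAssocRing R] (a b : R) : R := a * b + b * a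

/-- alternative rings -/
structure IsAlt (R : Type) [NonUnitalNonAssocRing R] : Prop where
  left : ∀ a b : R, (a * a) * b = a * (a * b)
  right : ∀ a b : R, (b * a) * a = b * (a * a)

section
variable {A : Type} [NonUnitalNonAssocRing A]

lemma IsAlt.as_left (h : IsAlt A) (a b c : A) : as a b c = - as b a c := by
  have h1 := h.left (a + b) c
  have h2 := h.left a c
  have h3 := h.left b c
  simp only [add_mul, mul_add] at h1
  unfold as
  rw [h2, h3] at h1
  have : a * b * c - a * (b * c) + (b * a * c - b * (a * c)) =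
    (a * (a * c) + b * a * c + (a * b * c + b * (b * c))) -
    (a * (a * c) + b * (a * c) + (a * (b * c) + b * (b * c))) := by abel
  rw [eq_neg_iff_add_eq_zero, this, h1]
  abel

lemma IsAlt.as_right (h : IsAlt A) (a b c : A) : as a b c = - as a c b := by
  have h1 := h.right (b + c) a
  have h2 := h.right b a
  have h3 := h.right c a
  simp only [add_mul, mul_add] at h1
  unfold as
  rw [h2, h3] at h1
  have : a * b * c - a * (b * c) + (a * c * b - a * (c * b)) =
    (a * (b * b) + a * c * b + (a * b * c + a * (c * c))) -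
    (a * (b * b) + a * (c * b) + (a * (b * c) + a * (c * c))) := by abel
  rw [eq_neg_iff_add_eq_zero, this, h1]
  abel
end

/-- super-alternative rings: `P 0` is the even part, `P 1` the odd part -/
structure SuperAlt (R : Type) [NonUnitalNonAssocRing R] (P : ℕ → AddSubgroup R) : Prop where
  mul_mem : ∀ {i j : ℕ} {a b : R}, a ∈ P i → b ∈ P j → a * b ∈ P ((i + j) % 2)
  left : ∀ {i j k : ℕ} {a b c : R}, i < 2 → j < 2 → a ∈ P i → b ∈ P j → c ∈ P k →
    as a b c = (if i * j = 1 then (1 : ℤ) else -1) • as b a c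
  right : ∀ {i j k : ℕ} {a b c : R}, j < 2 → k < 2 → a ∈ P i → b ∈ P j → c ∈ P k →
    as a b c = (if j * k = 1 then (1 : ℤ) else -1) • as a c b

section
variable (A : Type) [NonUnitalNonAssocRing A] (n : ℕ)

def TS : Type := A ⊗[ℤ] ExteriorAlgebra ℤ (Fin n → ℤ)

noncomputable instance : NonUnitalNonAssocRing (TS A n) :=
  inferInstanceAs (NonUnitalNonAssocRing (A ⊗[ℤ] ExteriorAlgebra ℤ (Fin n → ℤ)))

variable {A} {n}

/-- pure tensors -/
noncomputable def tm (a : A) (u : ExteriorAlgebra ℤ (Fin n → ℤ)) : TS A n := a ⊗ₜ[ℤ] u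

lemma tm_mul (a b : A) (u v : ExteriorAlgebra ℤ (Fin n → ℤ)) : tm a u * tm b v = tm (a * b) (u * v) :=
  Algebra.TensorProduct.tmul_mul_tmul a b u v
lemma tm_add (a b : A) (u : ExteriorAlgebra ℤ (Fin n → ℤ)) : tm (a + b) u = tm a u + tm b u :=
  TensorProduct.add_tmul a b u
lemma tm_addr (a : A) (u v : ExteriorAlgebra ℤ (Fin n → ℤ)) : tm a (u + v) = tm a u + tm a v :=
  TensorProduct.tmul_add a u v
lemma tm_neg (a : A) (u : ExteriorAlgebra ℤ (Fin n → ℤ)) : tm (-a) u = - tm a u :=
  TensorProduct.neg_tmul a u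
lemma tm_negr (a : A) (u : ExteriorAlgebra ℤ (Fin n → ℤ)) : tm a (-u) = - tm a u :=
  TensorProduct.tmul_neg a u
lemma tm_zero (u : ExteriorAlgebra ℤ (Fin n → ℤ)) : tm (0 : A) u = 0 :=
  TensorProduct.zero_tmul A u
lemma tm_zeror (a : A) : tm a (0 : ExteriorAlgebra ℤ (Fin n → ℤ)) = 0 :=
  TensorProduct.tmul_zero (ExteriorAlgebra ℤ (Fin n → ℤ)) a

/-- pure tensors -/
noncomputable def te (a : A) (l : List (Fin n)) : TS A n := tm a (E ℤ n l)

lemma te_mul (a b : A) (l l' : List (Fin n)) : te a l * te b l' = te (a * b) (l ++ l') := by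
  unfold te
  rw [tm_mul, E_append]

lemma te_add (a b : A) (l : List (Fin n)) : te a l + te b l = te (a + b) l := by
  unfold te; rw [tm_add]

lemma te_neg (a : A) (l : List (Fin n)) : te (-a) l = - te a l := by
  unfold te; rw [tm_neg]

lemma te_sub (a b : A) (l : List (Fin n)) : te a l - te b l = te (a - b) l := by
  rw [sub_eq_add_neg, ← te_neg, te_add, ← sub_eq_add_neg]

lemma te_zsmul (m : ℤ) (a : A) (l : List (Fin n)) : te (m • a) l = m • te a l := by
  have h : ∀ u : ExteriorAlgebra ℤ (Fin n → ℤ), (AddMonoidHom.mk' (fun a : A => (tm a u : TS A n)) (fun a b => tm_add a b u)) (m • a) =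
    m • (AddMonoidHom.mk' (fun a : A => (tm a u : TS A n)) (fun a b => tm_add a b u)) a := fun u => map_zsmul _ m a
  exact h _

/-- the parity parts -/
noncomputable def PP (b : ℕ) : AddSubgroup (TS A n) :=
  AddSubgroup.closure {z | ∃ (a : A) (l : List (Fin n)), l.length % 2 = b ∧ z = te a l}

lemma te_mem (a : A) (l : List (Fin n)) : te a l ∈ PP (A := A) (n := n) (l.length % 2) :=
  AddSubgroup.subset_closure ⟨a, l, rfl, rfl⟩

lemma PP_mul {i j : ℕ} {u v : TS A n} (hu : u ∈ PP (A := A) (n := n) i) (hv : v ∈ PP (A := A) (n := n) j) :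
    u * v ∈ PP (A := A) (n := n) ((i + j) % 2) := by
  induction hu using AddSubgroup.closure_induction with
  | mem u hu =>
    obtain ⟨a, l, hl, rfl⟩ := hu
    induction hv using AddSubgroup.closure_induction with
    | mem v hv =>
      obtain ⟨b, l', hl', rfl⟩ := hv
      rw [te_mul]
      have h := te_mem (a * b) (l ++ l')
      have h2 : (l ++ l').length % 2 = (i + j) % 2 := by rw [List.length_append]; omega
      rwa [h2] at h
    | zero => rw [mul_zero]; exact AddSubgroup.zero_mem _
    | add x y _ _ hx hy => rw [mul_add]; exact AddSubgroup.add_mem _ hx hy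
    | neg x _ hx => rw [mul_neg]; exact AddSubgroup.neg_mem _ hx
  | zero => rw [zero_mul]; exact AddSubgroup.zero_mem _
  | add x y _ _ hx hy => rw [add_mul]; exact AddSubgroup.add_mem _ hx hy
  | neg x _ hx => rw [neg_mul]; exact AddSubgroup.neg_mem _ hx

lemma as_te (a b c : A) (l l' l'' : List (Fin n)) :
    as (te a l) (te b l') (te c l'') = te (as a b c) (l ++ l' ++ l'') := by
  unfold as
  rw [te_mul, te_mul, te_mul, te_mul, ← List.append_assoc, te_sub]

lemma as_add1 {R : Type} [NonUnitalNonAssocRing R] (a a' b c : R) : as (a + a') b c = as a b c + as a' b c := by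
  unfold as; simp only [add_mul]; abel
lemma as_add2 {R : Type} [NonUnitalNonAssocRing R] (a b b' c : R) : as a (b + b') c = as a b c + as a b' c := by
  unfold as; simp only [add_mul, mul_add]; abel
lemma as_add3 {R : Type} [NonUnitalNonAssocRing R] (a b c c' : R) : as a b (c + c') = as a b c + as a b c' := by
  unfold as; simp only [mul_add]; abel
lemma as_neg1 {R : Type} [NonUnitalNonAssocRing R] (a b c : R) : as (-a) b c = - as a b c := by
  unfold as; simp only [neg_mul]; abel
lemma as_neg2 {R : Type} [NonUnitalNonAssocRing R] (a b c : R) : as a (-b) c = - as a b c := by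
  unfold as; simp only [neg_mul, mul_neg]; abel
lemma as_neg3 {R : Type} [NonUnitalNonAssocRing R] (a b c : R) : as a b (-c) = - as a b c := by
  unfold as; simp only [mul_neg]; abel
lemma as_z1 {R : Type} [NonUnitalNonAssocRing R] (b c : R) : as 0 b c = 0 := by unfold as; simp
lemma as_z2 {R : Type} [NonUnitalNonAssocRing R] (b c : R) : as b 0 c = 0 := by unfold as; simp
lemma as_z3 {R : Type} [NonUnitalNonAssocRing R] (b c : R) : as b c 0 = 0 := by unfold as; simp

/-- additive relations need only be checked on generators -/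
lemma tri_ind {R : Type} [NonUnitalNonAssocRing R] (s1 s2 s3 : Set R) (Φ : R → R → R → R)
    (hΦ1 : ∀ a a' b c, Φ (a + a') b c = Φ a b c + Φ a' b c) (hn1 : ∀ a b c, Φ (-a) b c = - Φ a b c)
    (hΦ2 : ∀ a b b' c, Φ a (b + b') c = Φ a b c + Φ a b' c) (hn2 : ∀ a b c, Φ a (-b) c = - Φ a b c)
    (hΦ3 : ∀ a b c c', Φ a b (c + c') = Φ a b c + Φ a b c') (hn3 : ∀ a b c, Φ a b (-c) = - Φ a b c)
    (hz1 : ∀ b c, Φ 0 b c = 0) (hz2 : ∀ b c, Φ b 0 c = 0) (hz3 : ∀ b c, Φ b c 0 = 0)
    (h : ∀ a ∈ s1, ∀ b ∈ s2, ∀ c ∈ s3, Φ a b c = 0) {a b c : R} (ha : a ∈ AddSubgroup.closure s1)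
    (hb : b ∈ AddSubgroup.closure s2) (hc : c ∈ AddSubgroup.closure s3) : Φ a b c = 0 := by
  induction ha using AddSubgroup.closure_induction with
  | mem a ha =>
    induction hb using AddSubgroup.closure_induction with
    | mem b hb =>
      induction hc using AddSubgroup.closure_induction with
      | mem c hc => exact h a ha b hb c hc
      | zero => exact hz3 _ _
      | add x y _ _ hx hy => rw [hΦ3, hx, hy, add_zero]
      | neg x _ hx => rw [hn3, hx, neg_zero]
    | zero => exact hz2 _ _
    | add x y _ _ hx hy => rw [hΦ2, hx, hy, add_zero]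
    | neg x _ hx => rw [hn2, hx, neg_zero]
  | zero => exact hz1 _ _
  | add x y _ _ hx hy => rw [hΦ1, hx, hy, add_zero]
  | neg x _ hx => rw [hn1, hx, neg_zero]

lemma sign_pow {i j a b : ℕ} (hi : a % 2 = i) (hj : b % 2 = j) :
    ((-1 : ℤ) ^ (a * b)) = - (if i * j = 1 then (1 : ℤ) else -1) := by
  split_ifs with h
  · have h1 : i = 1 := Nat.eq_one_of_mul_eq_one_right h
    have h2 : j = 1 := Nat.eq_one_of_mul_eq_one_left h
    have : Odd (a * b) := (Nat.odd_iff.mpr (by omega)).mul (Nat.odd_iff.mpr (by omega))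
    rw [this.neg_one_pow]
  · have : Even (a * b) := by
      rcases Nat.even_or_odd a with h1 | h1
      · exact h1.mul_right _
      · rcases Nat.even_or_odd b with h2 | h2
        · exact h2.mul_left _
        · rw [Nat.odd_iff] at h1 h2
          exact absurd (by rw [← hi, ← hj, h1, h2]) h
    rw [this.neg_one_pow]; simp

theorem superAlt (hA : IsAlt A) : SuperAlt (TS A n) (PP (A := A) (n := n)) where
  mul_mem := PP_mul
  left := by
    intro i j k a b c _ _ ha hb hc
    rw [← sub_eq_zero]
    refine tri_ind _ _ _ (fun a b c => as a b c - (if i * j = 1 then (1 : ℤ) else -1) • as b a c)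
      ?_ ?_ ?_ ?_ ?_ ?_ ?_ ?_ ?_ ?_ ha hb hc
    · intro a a' b c; simp only [as_add1, as_add2, smul_add]; abel
    · intro a b c; simp only [as_neg1, as_neg2, smul_neg]; abel
    · intro a a' b c; simp only [as_add1, as_add2, smul_add]; abel
    · intro a b c; simp only [as_neg1, as_neg2, smul_neg]; abel
    · intro a a' b c; simp only [as_add3, smul_add]; abel
    · intro a b c; simp only [as_neg3, smul_neg]; abel
    · intro b c; simp only [as_z1, as_z2, smul_zero, sub_zero]
    · intro b c; simp only [as_z1, as_z2, smul_zero, sub_zero]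
    · intro b c; simp only [as_z3, smul_zero, sub_zero]
    · rintro _ ⟨a, l, hl, rfl⟩ _ ⟨b, l', hl', rfl⟩ _ ⟨c, l'', hl'', rfl⟩
      rw [as_te, as_te, hA.as_left b a c]
      have h2 : te (as a b c) (l' ++ l ++ l'') = ((-1 : ℤ) ^ (l.length * l'.length)) • te (as a b c) (l ++ l' ++ l'') := by
        unfold te
        rw [E_append, E_append, E_append ℤ n (l ++ l'), E_append ℤ n l l', E_swap ℤ n l' l, mul_comm l'.length l.length]
        rcases Nat.even_or_odd (l.length * l'.length) with h | h
        · rw [h.neg_one_pow, h.neg_one_pow]; simp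
        · rw [h.neg_one_pow, h.neg_one_pow, neg_one_mul, neg_mul, tm_negr]; simp
      rw [te_neg, h2, sign_pow hl hl']
      split_ifs <;> simp
  right := by
    intro i j k a b c _ _ ha hb hc
    rw [← sub_eq_zero]
    refine tri_ind _ _ _ (fun a b c => as a b c - (if j * k = 1 then (1 : ℤ) else -1) • as a c b)
      ?_ ?_ ?_ ?_ ?_ ?_ ?_ ?_ ?_ ?_ ha hb hc
    · intro a a' b c; simp only [as_add1, smul_add]; abel
    · intro a b c; simp only [as_neg1, smul_neg]; abel
    · intro a a' b c; simp only [as_add3, as_add2, smul_add]; abel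
    · intro a b c; simp only [as_neg3, as_neg2, smul_neg]; abel
    · intro a a' b c; simp only [as_add3, as_add2, smul_add]; abel
    · intro a b c; simp only [as_neg3, as_neg2, smul_neg]; abel
    · intro b c; simp only [as_z1, smul_zero, sub_zero]
    · intro b c; simp only [as_z3, as_z2, smul_zero, sub_zero]
    · intro b c; simp only [as_z3, as_z2, smul_zero, sub_zero]
    · rintro _ ⟨a, l, hl, rfl⟩ _ ⟨b, l', hl', rfl⟩ _ ⟨c, l'', hl'', rfl⟩
      rw [as_te, as_te, hA.as_right a c b]
      have h2 : te (as a b c) (l ++ l'' ++ l') = ((-1 : ℤ) ^ (l'.length * l''.length)) • te (as a b c) (l ++ l' ++ l'') := by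
        unfold te
        rw [List.append_assoc, List.append_assoc, E_append, E_append ℤ n l'' l', E_append ℤ n l (l' ++ l''),
          E_append ℤ n l' l'', E_swap ℤ n l'' l', mul_comm l''.length l'.length]
        rcases Nat.even_or_odd (l'.length * l''.length) with h | h
        · rw [h.neg_one_pow, h.neg_one_pow]; simp
        · rw [h.neg_one_pow, h.neg_one_pow, neg_one_mul, mul_neg, tm_negr]; simp
      rw [te_neg, h2, sign_pow hl' hl'']
      split_ifs <;> simp

/-- extraction of the top coefficient -/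
noncomputable def ext : TS A n →+ A :=
  ((TensorProduct.rid ℤ A).toLinearMap ∘ₗ (TensorProduct.map (LinearMap.id : A →ₗ[ℤ] A) (top ℤ n))).toAddMonoidHom

lemma ext_te (a : A) : ext (te a (List.ofFn (fun i : Fin n => i))) = a := by
  show (TensorProduct.rid ℤ A) (TensorProduct.map LinearMap.id (top ℤ n) (a ⊗ₜ[ℤ] E ℤ n _)) = a
  rw [TensorProduct.map_tmul, top_E, TensorProduct.rid_tmul, one_smul]
  rfl

end

end Pool.Agent.Helper805.Nuc.Tens
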