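import Mathlib
set_option autoImplicit false

/-! The free alternative algebra, as a quotient of the free nonassociative algebra of Mathlib by a ring
congruence; its nucleus; the ideal generated by the commutators with the nucleus. -/

namespace Pool.Agent.Helper805.Nuc.Defs

/-- The defining relations of alternativity: `(u u) v` is related to `u (u v)` and `(v u) u` to `v (u u)`,
for all elements `u`, `v`. -/
def AltRel (F : Type) [NonUnitalNonAssocRing F] (a b : F) : Prop :=
  ∃ u v : F, (a = (u * u) * v ∧ b = u * (u * v)) ∨ (a = (v * u) * u ∧ b = v * (u * u))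

/-- The free alternative `Φ`-algebra on the set `X`: the free nonassociative `Φ`-algebra modulo the smallest
ring congruence containing the alternativity relations. -/
abbrev FreeAlt (Φ : Type) [CommRing Φ] (X : Type) : Type :=
  (ringConGen (AltRel (FreeNonUnitalNonAssocAlgebra Φ X))).Quotient

/-- The associator `(a, b, c) = (a b) c - a (b c)`. -/
def assoc {A : Type} [NonUnitalNonAssocRing A] (a b c : A) : A := (a * b) * c - a * (b * c)

/-- The nucleus: all `n` with `(n, a, b) = (a, n, b) = (a, b, n) = 0` for all `a`, `b`. -/
def nucleus (A : Type) [NonUnitalNonAssocRing A] : Set A :=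
  {n | ∀ a b : A, assoc n a b = 0 ∧ assoc a n b = 0 ∧ assoc a b n = 0}

/-- The two-sided ideal generated by all commutators `n t - t n` with `n` in the nucleus. -/
noncomputable def ZN (A : Type) [NonUnitalNonAssocRing A] : TwoSidedIdeal A :=
  TwoSidedIdeal.span {c : A | ∃ n ∈ nucleus A, ∃ t : A, c = n * t - t * n}

end Pool.Agent.Helper805.Nuc.Defs
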