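import Pool.Agent.Helper805.Nuc.Tens
set_option autoImplicit false
set_option linter.unusedSimpArgs false

/-! The multilinear function `nf` and its super version. -/

namespace Pool.Agent.Helper805.Nuc.NFun
open Pool.Agent.Helper805.Nuc.Ext Pool.Agent.Helper805.Nuc.Tens

/-- the ordinary multilinear polynomial -/
def Fp {R : Type} [NonUnitalNonAssocRing R] (a1 a2 a3 a4 a5 y : R) : R :=
  (3 : ℤ) • br (br a1 y) (jo (br a2 a3) (br a4 a5)) + (8 : ℤ) • jo (br a1 (as a2 a3 a4)) (br a5 y) +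
    (8 : ℤ) • jo (br y (as a1 a2 a3)) (br a4 a5)

/-- its alternating sum -/
def nf {R : Type} [NonUnitalNonAssocRing R] (x : Fin 5 → R) (y : R) : R :=
  ∑ σ : Equiv.Perm (Fin 5), ((Equiv.Perm.sign σ : ℤˣ) : ℤ) • Fp (x (σ 0)) (x (σ 1)) (x (σ 2)) (x (σ 3)) (x (σ 4)) y

/-- the super version, for odd `a i` and even `y` -/
def M5 {R : Type} [NonUnitalNonAssocRing R] (a1 a2 a3 a4 a5 y : R) : R :=
  (3 : ℤ) • br (br a1 y) (jo (jo a2 a3) (jo a4 a5)) + (8 : ℤ) • jo (jo a1 (as a2 a3 a4)) (br a5 y) +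
    (8 : ℤ) • jo (br y (as a1 a2 a3)) (jo a4 a5)

section
variable {A : Type} [NonUnitalNonAssocRing A] {n : ℕ}

lemma te_swap (a : A) (l l' : List (Fin n)) :
    te a (l' ++ l) = ((-1 : ℤ) ^ (l.length * l'.length)) • te a (l ++ l') := by
  unfold te
  rw [E_append, E_append, E_swap ℤ n l' l, mul_comm l'.length l.length]
  rcases Nat.even_or_odd (l.length * l'.length) with h | h
  · rw [h.neg_one_pow, h.neg_one_pow]; simp
  · rw [h.neg_one_pow, h.neg_one_pow, neg_one_mul, tm_negr]; simp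

lemma jo_odd (a b : A) (l l' : List (Fin n)) (h : Odd (l.length * l'.length)) :
    jo (te a l) (te b l') = te (br a b) (l ++ l') := by
  unfold jo br
  rw [te_mul, te_mul, te_swap (b * a) l l', h.neg_one_pow, ← te_sub]
  simp [sub_eq_add_neg]

lemma jo_even (a b : A) (l l' : List (Fin n)) (h : Even (l.length * l'.length)) :
    jo (te a l) (te b l') = te (jo a b) (l ++ l') := by
  unfold jo
  rw [te_mul, te_mul, te_swap (b * a) l l', h.neg_one_pow, ← te_add]
  simp

lemma br_even (a b : A) (l l' : List (Fin n)) (h : Even (l.length * l'.length)) :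
    br (te a l) (te b l') = te (br a b) (l ++ l') := by
  unfold br
  rw [te_mul, te_mul, te_swap (b * a) l l', h.neg_one_pow, ← te_sub]
  simp

lemma M5_te (a1 a2 a3 a4 a5 y : A) (k1 k2 k3 k4 k5 : Fin n) :
    M5 (te a1 [k1]) (te a2 [k2]) (te a3 [k3]) (te a4 [k4]) (te a5 [k5]) (te y []) =
      te (Fp a1 a2 a3 a4 a5 y) [k1, k2, k3, k4, k5] := by
  unfold M5 Fp
  rw [br_even a1 y [k1] [] (show Even (1 * 0) by decide), jo_odd a2 a3 [k2] [k3] (show Odd (1 * 1) by decide),
    jo_odd a4 a5 [k4] [k5] (show Odd (1 * 1) by decide), as_te, br_even a5 y [k5] [] (show Even (1 * 0) by decide), as_te]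
  simp only [List.append_nil, List.nil_append, List.cons_append]
  rw [jo_even _ _ [k2, k3] [k4, k5] (show Even (2 * 2) by decide),
    jo_odd a1 _ [k1] [k2, k3, k4] (show Odd (1 * 3) by decide),
    br_even y _ [] [k1, k2, k3] (show Even (0 * 3) by decide)]
  simp only [List.append_nil, List.nil_append, List.cons_append]
  rw [br_even _ _ [k1] [k2, k3, k4, k5] (show Even (1 * 4) by decide),
    jo_even _ _ [k1, k2, k3, k4] [k5] (show Even (4 * 1) by decide),
    jo_even _ _ [k1, k2, k3] [k4, k5] (show Even (3 * 2) by decide)]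
  simp only [← te_zsmul, List.append_nil, List.nil_append, List.cons_append, te_add]

end

section
variable {R : Type} [NonUnitalNonAssocRing R]

lemma jo_add1 (a a' b : R) : jo (a + a') b = jo a b + jo a' b := by unfold jo; simp only [add_mul, mul_add]; abel
lemma jo_add2 (a b b' : R) : jo a (b + b') = jo a b + jo a b' := by unfold jo; simp only [add_mul, mul_add]; abel
lemma br_add1 (a a' b : R) : br (a + a') b = br a b + br a' b := by unfold br; simp only [add_mul, mul_add]; abel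
lemma br_add2 (a b b' : R) : br a (b + b') = br a b + br a b' := by unfold br; simp only [add_mul, mul_add]; abel

lemma M5_add1 (a a' b c d e y : R) : M5 (a + a') b c d e y = M5 a b c d e y + M5 a' b c d e y := by
  unfold M5; simp only [br_add1, br_add2, jo_add1, jo_add2, as_add1, as_add2, as_add3, smul_add]; abel
lemma M5_add2 (a b b' c d e y : R) : M5 a (b + b') c d e y = M5 a b c d e y + M5 a b' c d e y := by
  unfold M5; simp only [br_add1, br_add2, jo_add1, jo_add2, as_add1, as_add2, as_add3, smul_add]; abel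
lemma M5_add3 (a b c c' d e y : R) : M5 a b (c + c') d e y = M5 a b c d e y + M5 a b c' d e y := by
  unfold M5; simp only [br_add1, br_add2, jo_add1, jo_add2, as_add1, as_add2, as_add3, smul_add]; abel
lemma M5_add4 (a b c d d' e y : R) : M5 a b c (d + d') e y = M5 a b c d e y + M5 a b c d' e y := by
  unfold M5; simp only [br_add1, br_add2, jo_add1, jo_add2, as_add1, as_add2, as_add3, smul_add]; abel
lemma M5_add5 (a b c d e e' y : R) : M5 a b c d (e + e') y = M5 a b c d e y + M5 a b c d e' y := by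
  unfold M5; simp only [br_add1, br_add2, jo_add1, jo_add2, as_add1, as_add2, as_add3, smul_add]; abel

lemma M5_z1 (b c d e y : R) : M5 0 b c d e y = 0 := by
  have := M5_add1 0 0 b c d e y; simpa using this
lemma M5_z2 (b c d e y : R) : M5 b 0 c d e y = 0 := by
  have := M5_add2 b 0 0 c d e y; simpa using this
lemma M5_z3 (b c d e y : R) : M5 b c 0 d e y = 0 := by
  have := M5_add3 b c 0 0 d e y; simpa using this
lemma M5_z4 (b c d e y : R) : M5 b c d 0 e y = 0 := by
  have := M5_add4 b c d 0 0 e y; simpa using this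
lemma M5_z5 (b c d e y : R) : M5 b c d e 0 y = 0 := by
  have := M5_add5 b c d e 0 0 y; simpa using this

lemma add_sum_of {ι : Type} (s : Finset ι) (f : R → R) (h0 : f 0 = 0) (hadd : ∀ a b, f (a + b) = f a + f b)
    (g : ι → R) : f (∑ i ∈ s, g i) = ∑ i ∈ s, f (g i) := by
  classical
  induction s using Finset.induction_on with
  | empty => simpa using h0
  | insert i s hi ih => rw [Finset.sum_insert hi, Finset.sum_insert hi, hadd, ih]

lemma M5_sum {ι : Type} (s : Finset ι) (g : ι → R) (y : R) :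
    M5 (∑ i ∈ s, g i) (∑ i ∈ s, g i) (∑ i ∈ s, g i) (∑ i ∈ s, g i) (∑ i ∈ s, g i) y =
      ∑ i1 ∈ s, ∑ i2 ∈ s, ∑ i3 ∈ s, ∑ i4 ∈ s, ∑ i5 ∈ s, M5 (g i1) (g i2) (g i3) (g i4) (g i5) y := by
  rw [add_sum_of s (fun a => M5 a _ _ _ _ y) (M5_z1 _ _ _ _ _) (fun a b => M5_add1 a b _ _ _ _ _)]
  refine Finset.sum_congr rfl fun i1 _ => ?_
  rw [add_sum_of s (fun a => M5 _ a _ _ _ y) (M5_z2 _ _ _ _ _) (fun a b => M5_add2 _ a b _ _ _ _)]
  refine Finset.sum_congr rfl fun i2 _ => ?_
  rw [add_sum_of s (fun a => M5 _ _ a _ _ y) (M5_z3 _ _ _ _ _) (fun a b => M5_add3 _ _ a b _ _ _)]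
  refine Finset.sum_congr rfl fun i3 _ => ?_
  rw [add_sum_of s (fun a => M5 _ _ _ a _ y) (M5_z4 _ _ _ _ _) (fun a b => M5_add4 _ _ _ a b _ _)]
  refine Finset.sum_congr rfl fun i4 _ => ?_
  rw [add_sum_of s (fun a => M5 _ _ _ _ a y) (M5_z5 _ _ _ _ _) (fun a b => M5_add5 _ _ _ _ a b _)]

end

section
variable {A : Type} [NonUnitalNonAssocRing A]

/-- the generic odd element -/
noncomputable def XX (x : Fin 5 → A) : TS A 5 := ∑ i : Fin 5, te (x i) [i]

lemma sum5 {M : Type} [AddCommMonoid M] (f : (Fin 5 → Fin 5) → M) :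
    ∑ i1 : Fin 5, ∑ i2 : Fin 5, ∑ i3 : Fin 5, ∑ i4 : Fin 5, ∑ i5 : Fin 5, f ![i1, i2, i3, i4, i5] = ∑ r, f r := by
  rw [← (Fin.consEquiv (fun _ : Fin 5 => Fin 5)).sum_comp, Fintype.sum_prod_type]
  refine Finset.sum_congr rfl fun i1 _ => ?_
  rw [← (Fin.consEquiv (fun _ : Fin 4 => Fin 5)).sum_comp, Fintype.sum_prod_type]
  refine Finset.sum_congr rfl fun i2 _ => ?_
  rw [← (Fin.consEquiv (fun _ : Fin 3 => Fin 5)).sum_comp, Fintype.sum_prod_type]
  refine Finset.sum_congr rfl fun i3 _ => ?_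
  rw [← (Fin.consEquiv (fun _ : Fin 2 => Fin 5)).sum_comp, Fintype.sum_prod_type]
  refine Finset.sum_congr rfl fun i4 _ => ?_
  rw [← (Fin.consEquiv (fun _ : Fin 1 => Fin 5)).sum_comp, Fintype.sum_prod_type]
  refine Finset.sum_congr rfl fun i5 _ => ?_
  rw [Fintype.sum_unique]
  congr 1

theorem M5_XX (x : Fin 5 → A) (y : A) :
    M5 (XX x) (XX x) (XX x) (XX x) (XX x) (te y []) = te (nf x y) (List.ofFn (fun i : Fin 5 => i)) := by
  unfold XX
  rw [M5_sum]
  simp only [M5_te]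
  have h1 := sum5 (fun r : Fin 5 → Fin 5 => te (Fp (x (r 0)) (x (r 1)) (x (r 2)) (x (r 3)) (x (r 4)) y) [r 0, r 1, r 2, r 3, r 4])
  refine h1.trans ?_
  have h2 : ∀ r : Fin 5 → Fin 5, [r 0, r 1, r 2, r 3, r 4] = List.ofFn r := by
    intro r; simp [List.ofFn_succ]
  simp only [h2]
  have hinj : Function.Injective (fun σ : Equiv.Perm (Fin 5) => (σ : Fin 5 → Fin 5)) := Equiv.coe_fn_injective
  rw [← Finset.sum_subset (Finset.subset_univ (Finset.univ.map ⟨_, hinj⟩)), Finset.sum_map]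
  · unfold nf
    have h3 : te (∑ σ : Equiv.Perm (Fin 5), ((Equiv.Perm.sign σ : ℤˣ) : ℤ) • Fp (x (σ 0)) (x (σ 1)) (x (σ 2)) (x (σ 3)) (x (σ 4)) y)
        (List.ofFn (fun i : Fin 5 => i)) = ∑ σ : Equiv.Perm (Fin 5), te (((Equiv.Perm.sign σ : ℤˣ) : ℤ) •
          Fp (x (σ 0)) (x (σ 1)) (x (σ 2)) (x (σ 3)) (x (σ 4)) y) (List.ofFn (fun i : Fin 5 => i)) := by
      have h4 := map_sum (AddMonoidHom.mk' (fun a : A => (te a (List.ofFn (fun i : Fin 5 => i)) : TS A 5)) (fun a b => (te_add a b _).symm))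
        (fun σ : Equiv.Perm (Fin 5) => ((Equiv.Perm.sign σ : ℤˣ) : ℤ) • Fp (x (σ 0)) (x (σ 1)) (x (σ 2)) (x (σ 3)) (x (σ 4)) y) Finset.univ
      exact h4
    rw [h3]
    refine Finset.sum_congr rfl fun σ _ => ?_
    rw [te_zsmul]
    show te _ (List.ofFn (fun i => (fun j : Fin 5 => j) (σ i))) = _
    unfold te
    rw [E_perm ℤ 5 5 (fun j : Fin 5 => j) σ]
    have h5 : ∀ (m : ℤ) (a : A) (u : ExteriorAlgebra ℤ (Fin 5 → ℤ)), tm a (m • u) = m • tm a u := by
      intro m a u
      exact map_zsmul (AddMonoidHom.mk' (fun u => (tm a u : TS A 5)) (fun u v => tm_addr a u v)) m u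
    rw [h5]
    rfl
  · intro r _ hr
    unfold te
    rw [E_noninj, tm_zeror]
    intro hri
    apply hr
    rw [Finset.mem_map]
    exact ⟨Equiv.ofBijective r (Finite.injective_iff_bijective.mp hri), Finset.mem_univ _, rfl⟩

end
end Pool.Agent.Helper805.Nuc.NFun
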