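import Pool.Agent.Helper805.Nuc.NFun
set_option autoImplicit false

/-! From the super identity `K • (N6, z, z) = 0` to the nuclearity of `2 K • nf`. -/

namespace Pool.Agent.Helper805.Nuc.Reduce
open Pool.Agent.Helper805.Nuc.Ext Pool.Agent.Helper805.Nuc.Tens Pool.Agent.Helper805.Nuc.NFun

section
variable {A : Type} [NonUnitalNonAssocRing A] {n : ℕ}

/-- the generic odd element, with the exterior generators `ι i` -/
noncomputable def XI (ι : Fin 5 → Fin n) (x : Fin 5 → A) : TS A n := ∑ i : Fin 5, te (x i) [ι i]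

theorem M5_XI (ι : Fin 5 → Fin n) (x : Fin 5 → A) (y : A) :
    M5 (XI ι x) (XI ι x) (XI ι x) (XI ι x) (XI ι x) (te y []) = te (nf x y) (List.ofFn ι) := by
  unfold XI
  rw [M5_sum]
  simp only [M5_te]
  have h1 := sum5 (fun r : Fin 5 → Fin 5 => te (Fp (x (r 0)) (x (r 1)) (x (r 2)) (x (r 3)) (x (r 4)) y)
    [ι (r 0), ι (r 1), ι (r 2), ι (r 3), ι (r 4)])
  refine h1.trans ?_
  have h2 : ∀ r : Fin 5 → Fin 5, [ι (r 0), ι (r 1), ι (r 2), ι (r 3), ι (r 4)] = List.ofFn (fun i => ι (r i)) := by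
    intro r; simp [List.ofFn_succ]
  simp only [h2]
  have hinj : Function.Injective (fun σ : Equiv.Perm (Fin 5) => (σ : Fin 5 → Fin 5)) := Equiv.coe_fn_injective
  rw [← Finset.sum_subset (Finset.subset_univ (Finset.univ.map ⟨_, hinj⟩)), Finset.sum_map]
  · unfold nf
    have h3 : te (∑ σ : Equiv.Perm (Fin 5), ((Equiv.Perm.sign σ : ℤˣ) : ℤ) • Fp (x (σ 0)) (x (σ 1)) (x (σ 2)) (x (σ 3)) (x (σ 4)) y)
        (List.ofFn ι) = ∑ σ : Equiv.Perm (Fin 5), te (((Equiv.Perm.sign σ : ℤˣ) : ℤ) •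
          Fp (x (σ 0)) (x (σ 1)) (x (σ 2)) (x (σ 3)) (x (σ 4)) y) (List.ofFn ι) := by
      have h4 := map_sum (AddMonoidHom.mk' (fun a : A => (te a (List.ofFn ι) : TS A n)) (fun a b => (te_add a b _).symm))
        (fun σ : Equiv.Perm (Fin 5) => ((Equiv.Perm.sign σ : ℤˣ) : ℤ) • Fp (x (σ 0)) (x (σ 1)) (x (σ 2)) (x (σ 3)) (x (σ 4)) y) Finset.univ
      exact h4
    rw [h3]
    refine Finset.sum_congr rfl fun σ _ => ?_
    rw [te_zsmul]
    show te _ (List.ofFn (fun i => ι (σ i))) = _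
    unfold te
    rw [E_perm ℤ n 5 ι σ]
    have h5 : ∀ (m : ℤ) (a : A) (u : ExteriorAlgebra ℤ (Fin n → ℤ)), tm a (m • u) = m • tm a u := by
      intro m a u
      exact map_zsmul (AddMonoidHom.mk' (fun u => (tm a u : TS A n)) (fun u v => tm_addr a u v)) m u
    rw [h5]
    rfl
  · intro r _ hr
    unfold te
    rw [E_noninj, tm_zeror]
    intro hri
    apply hr
    rw [Finset.mem_map]
    have hri' : Function.Injective r := fun a b hab => hri (by show ι (r a) = ι (r b); rw [hab])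
    exact ⟨Equiv.ofBijective r (Finite.injective_iff_bijective.mp hri'), Finset.mem_univ _, rfl⟩

lemma te_swap1 (a : A) (l : List (Fin n)) (i j : Fin n) : te a (l ++ [j] ++ [i]) = - te a (l ++ [i] ++ [j]) := by
  unfold te
  rw [List.append_assoc, List.append_assoc, E_append, E_append ℤ n l ([i] ++ [j]), E_append, E_append ℤ n [i] [j],
    E_swap ℤ n [j] [i]]
  have : ((-1 : ExteriorAlgebra ℤ (Fin n → ℤ)) ^ (([j] : List (Fin n)).length * ([i] : List (Fin n)).length)) = -1 := by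
    simp
  rw [this, neg_one_mul, mul_neg, tm_negr]

lemma te_sq (a : A) (l : List (Fin n)) (i : Fin n) : te a (l ++ [i] ++ [i]) = 0 := by
  unfold te
  rw [List.append_assoc, E_append, E_append]
  have : E ℤ n [i] * E ℤ n [i] = 0 := by
    unfold E gen
    simp
  rw [this, mul_zero, tm_zeror]

lemma XI_mem (ι : Fin 5 → Fin n) (x : Fin 5 → A) : XI ι x ∈ PP (A := A) (n := n) 1 := by
  unfold XI
  exact AddSubgroup.sum_mem _ (fun i _ => te_mem (x i) [ι i])

end

/-- the super identity implies nuclearity -/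
theorem nuc_of_cert (K : ℤ)
    (hcert : ∀ (R : Type) [NonUnitalNonAssocRing R] (P : ℕ → AddSubgroup R), SuperAlt R P →
      ∀ x ∈ P 1, ∀ y ∈ P 0, ∀ z ∈ P 1, K • as (M5 x x x x x y) z z = 0)
    (A : Type) [NonUnitalNonAssocRing A] (hA : IsAlt A) (x : Fin 5 → A) (y r s : A) :
    (2 * K) • as (nf x y) r s = 0 := by
  let ι : Fin 5 → Fin 7 := Fin.castLE (by norm_num)
  have h := hcert (TS A 7) PP (superAlt hA) (XI ι x) (XI_mem ι x) (te y []) (te_mem y [])
    (te r [5] + te s [6]) (AddSubgroup.add_mem _ (te_mem r [5]) (te_mem s [6]))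
  rw [M5_XI, as_add2, as_add3, as_add3, as_te, as_te, as_te, as_te, te_sq, te_sq, te_swap1 _ _ 5 6, zero_add, add_zero,
    hA.as_right _ s r, te_neg, neg_neg, ← two_smul ℤ, smul_smul, ← te_zsmul] at h
  have h2 : (List.ofFn ι ++ [5] ++ [6] : List (Fin 7)) = List.ofFn (fun i : Fin 7 => i) := by decide
  rw [h2] at h
  have h3 := congrArg ext h
  rw [ext_te, map_zero, mul_comm] at h3
  exact h3

end Pool.Agent.Helper805.Nuc.Reduce
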