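import Pool.Agent.Helper805.Nuc.Main7
import Pool.Agent.Helper805.Nuc.Reduce
import Pool.Agent.Helper805.NucCert.Super
import Pool.Agent.Helper805.Nuc.Defs
set_option autoImplicit false

/-! The free alternative algebra as a quotient of Mathlib's free nonassociative algebra by a ring congruence. -/

namespace Pool.Agent.Helper805.Nuc.Clean
open Pool.Agent.Helper805.Nuc.Defs Pool.Agent.Helper805.Nuc.Tens Pool.Agent.Helper805.Nuc.NFun Pool.Agent.Helper805.Nuc.Alt

section
variable {Φ : Type} [CommRing Φ] {X : Type}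

/-- the class of an element -/
noncomputable abbrev mk (a : FreeNonUnitalNonAssocAlgebra Φ X) : FreeAlt Φ X :=
  (a : (ringConGen (AltRel (FreeNonUnitalNonAssocAlgebra Φ X))).Quotient)

lemma mk_surj (a : FreeAlt Φ X) : ∃ b, mk b = a := Quotient.exists_rep a

lemma isAlt : IsAlt (FreeAlt Φ X) where
  left a b := by
    obtain ⟨a, rfl⟩ := mk_surj a
    obtain ⟨b, rfl⟩ := mk_surj b
    exact (RingCon.eq _).mpr (RingConGen.Rel.of _ _ ⟨a, b, Or.inl ⟨rfl, rfl⟩⟩)
  right a b := by
    obtain ⟨a, rfl⟩ := mk_surj a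
    obtain ⟨b, rfl⟩ := mk_surj b
    exact (RingCon.eq _).mpr (RingConGen.Rel.of _ _ ⟨a, b, Or.inr ⟨rfl, rfl⟩⟩)

/-- the generators -/
noncomputable def gen (x : X) : FreeAlt Φ X := mk (FreeNonUnitalNonAssocAlgebra.of Φ x)

variable {B : Type} [NonUnitalNonAssocRing B] [Module Φ B] [IsScalarTower Φ B B] [SMulCommClass Φ B B]

lemma rel_lift (hB : IsAlt B) (f : X → B) (a b : FreeNonUnitalNonAssocAlgebra Φ X)
    (h : RingConGen.Rel (AltRel (FreeNonUnitalNonAssocAlgebra Φ X)) a b) :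
    FreeNonUnitalNonAssocAlgebra.lift Φ f a = FreeNonUnitalNonAssocAlgebra.lift Φ f b := by
  induction h with
  | of a b h =>
    obtain ⟨u, v, (⟨rfl, rfl⟩ | ⟨rfl, rfl⟩)⟩ := h
    · simp only [map_mul]; exact hB.left _ _
    · simp only [map_mul]; exact hB.right _ _
  | refl a => rfl
  | symm _ h => exact h.symm
  | trans _ _ h h' => exact h.trans h'
  | add _ _ h h' => rw [map_add, map_add, h, h']
  | mul _ _ h h' => rw [map_mul, map_mul, h, h']

/-- the universal property -/
noncomputable def lift (hB : IsAlt B) (f : X → B) : FreeAlt Φ X →ₙ+* B where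
  toFun := fun a => Quotient.lift (fun a => FreeNonUnitalNonAssocAlgebra.lift Φ f a) (fun a b h => rel_lift hB f a b h) a
  map_mul' a b := by
    obtain ⟨a, rfl⟩ := mk_surj a
    obtain ⟨b, rfl⟩ := mk_surj b
    exact map_mul (FreeNonUnitalNonAssocAlgebra.lift Φ f) a b
  map_zero' := map_zero (FreeNonUnitalNonAssocAlgebra.lift Φ f)
  map_add' a b := by
    obtain ⟨a, rfl⟩ := mk_surj a
    obtain ⟨b, rfl⟩ := mk_surj b
    exact map_add (FreeNonUnitalNonAssocAlgebra.lift Φ f) a b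

lemma lift_gen (hB : IsAlt B) (f : X → B) (x : X) : lift (Φ := Φ) hB f (gen x) = f x :=
  FreeNonUnitalNonAssocAlgebra.lift_of_apply Φ f x

end

/-- The argument in any alternative ring with enough room. -/
theorem main_general {A B : Type} [NonUnitalNonAssocRing A] [NonUnitalNonAssocRing B] (hA : IsAlt A) (w : Fin 10 → A)
    (g : A →ₙ+* B) (k : ℤ)
    (hnuc : ∀ (x : Fin 5 → A) (y r s : A), k • as (nf x y) r s = 0)
    (hne : (2 * k) • (br (nf (fun i : Fin 5 => g (w (Fin.castLE (by norm_num) i))) (g (w 5))) (g (w 6)) *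
      as (g (w 7)) (g (w 8)) (g (w 9))) ≠ 0) :
    ∃ z ∈ ZN A, ∃ a b : A, (2 : ℤ) • assoc z a b ≠ 0 := by
  let n : A := k • nf (fun i : Fin 5 => w (Fin.castLE (by norm_num) i)) (w 5)
  have hn : IsNuc n := by
    intro a b
    show as (k • _) a b = 0
    rw [Main7.as_zsmul1]
    exact hnuc _ _ _ _
  have hc : IsNuc (br n (w 6)) := hn.comm hA _
  refine ⟨br n (w 6) * w 7, ?_, w 8, w 9, ?_⟩
  · refine TwoSidedIdeal.mul_mem_right _ _ _ (TwoSidedIdeal.subset_span ?_)
    exact ⟨n, fun a b => ⟨hn a b, hn.two hA a b, hn.three hA a b⟩, w 6, rfl⟩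
  · intro hz
    have h1 : (2 : ℤ) • as (br n (w 6) * w 7) (w 8) (w 9) = 0 := hz
    rw [hc.mul_left hA] at h1
    have h2 := congrArg g h1
    rw [map_zsmul, map_mul, Wit7.map_br, Wit7.map_as, map_zero] at h2
    have h3 : g n = k • nf (fun i : Fin 5 => g (w (Fin.castLE (by norm_num) i))) (g (w 5)) := by
      show g (k • nf _ _) = _
      rw [map_zsmul, Wit7.map_nf]
    rw [h3, Main7.br_zsmul1, smul_mul_assoc, smul_smul] at h2
    exact hne h2

end Pool.Agent.Helper805.Nuc.Clean
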