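import Pool.Agent.Helper805.Nuc.Tens
set_option autoImplicit false

/-! The free alternative algebra. -/

namespace Pool.Agent.Helper805.Nuc.Free
open Pool.Agent.Helper805.Nuc.Tens

section
variable (Φ : Type) [CommRing Φ] (X : Type)

/-- the free nonassociative algebra -/
abbrev FN : Type := FreeNonUnitalNonAssocAlgebra Φ X

/-- The T-ideal of alternativity: the smallest two-sided ideal (a `Φ`-submodule absorbing multiplications)
of the free nonassociative algebra that contains all `(a,a,b)` and all `(b,a,a)`. -/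
noncomputable def altIdeal : Submodule Φ (FN Φ X) :=
  sInf {T | (∀ a t : FN Φ X, t ∈ T → a * t ∈ T ∧ t * a ∈ T) ∧
    ∀ a b : FN Φ X, (a * a) * b - a * (a * b) ∈ T ∧ (b * a) * a - b * (a * a) ∈ T}

variable {Φ X}

lemma altIdeal_mul (a : FN Φ X) {t : FN Φ X} (ht : t ∈ altIdeal Φ X) :
    a * t ∈ altIdeal Φ X ∧ t * a ∈ altIdeal Φ X := by
  unfold altIdeal at *
  simp only [Submodule.mem_sInf] at *
  exact ⟨fun T hT => (hT.1 a t (ht T hT)).1, fun T hT => (hT.1 a t (ht T hT)).2⟩

lemma altIdeal_alt (a b : FN Φ X) :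
    (a * a) * b - a * (a * b) ∈ altIdeal Φ X ∧ (b * a) * a - b * (a * a) ∈ altIdeal Φ X := by
  unfold altIdeal
  simp only [Submodule.mem_sInf]
  exact ⟨fun T hT => (hT.2 a b).1, fun T hT => (hT.2 a b).2⟩

end

/-- The free alternative `Φ`-algebra on the set `X`. -/
def FreeAlt (Φ : Type) [CommRing Φ] (X : Type) : Type := FN Φ X ⧸ altIdeal Φ X

namespace FreeAlt
variable {Φ : Type} [CommRing Φ] {X : Type}

noncomputable instance : AddCommGroup (FreeAlt Φ X) := inferInstanceAs (AddCommGroup (FN Φ X ⧸ altIdeal Φ X))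
noncomputable instance : Module Φ (FreeAlt Φ X) := inferInstanceAs (Module Φ (FN Φ X ⧸ altIdeal Φ X))

/-- the class of an element of the free nonassociative algebra -/
noncomputable def mk : FN Φ X →ₗ[Φ] FreeAlt Φ X := (altIdeal Φ X).mkQ

lemma mk_surj : Function.Surjective (mk : FN Φ X →ₗ[Φ] FreeAlt Φ X) := Submodule.mkQ_surjective _

lemma mk_eq {a b : FN Φ X} : mk a = mk b ↔ a - b ∈ altIdeal Φ X := Submodule.Quotient.eq _

noncomputable instance : Mul (FreeAlt Φ X) :=
  ⟨Quotient.map₂ (fun a b : FN Φ X => a * b) (by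
    intro a a' ha b b' hb
    have h1 : a - a' ∈ altIdeal Φ X := (Submodule.quotientRel_def _).mp ha
    have h2 : b - b' ∈ altIdeal Φ X := (Submodule.quotientRel_def _).mp hb
    refine (Submodule.quotientRel_def _).mpr ?_
    have h3 : a * b - a' * b' = (a - a') * b + a' * (b - b') := by rw [sub_mul, mul_sub]; abel
    rw [h3]
    exact Submodule.add_mem _ (altIdeal_mul b h1).2 (altIdeal_mul a' h2).1)⟩

lemma mk_mul (a b : FN Φ X) : mk (a * b) = mk a * mk b := rfl

noncomputable instance : NonUnitalNonAssocRing (FreeAlt Φ X) where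
  left_distrib := by
    intro a b c
    obtain ⟨a, rfl⟩ := mk_surj a
    obtain ⟨b, rfl⟩ := mk_surj b
    obtain ⟨c, rfl⟩ := mk_surj c
    rw [← map_add, ← mk_mul, ← mk_mul, ← mk_mul, mul_add, map_add]
  right_distrib := by
    intro a b c
    obtain ⟨a, rfl⟩ := mk_surj a
    obtain ⟨b, rfl⟩ := mk_surj b
    obtain ⟨c, rfl⟩ := mk_surj c
    rw [← map_add, ← mk_mul, ← mk_mul, ← mk_mul, add_mul, map_add]
  zero_mul := by
    intro a
    obtain ⟨a, rfl⟩ := mk_surj a
    rw [← map_zero (mk : FN Φ X →ₗ[Φ] FreeAlt Φ X), ← mk_mul, zero_mul]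
  mul_zero := by
    intro a
    obtain ⟨a, rfl⟩ := mk_surj a
    rw [← map_zero (mk : FN Φ X →ₗ[Φ] FreeAlt Φ X), ← mk_mul, mul_zero]

instance : IsScalarTower Φ (FreeAlt Φ X) (FreeAlt Φ X) := ⟨by
  intro r a b
  obtain ⟨a, rfl⟩ := mk_surj a
  obtain ⟨b, rfl⟩ := mk_surj b
  rw [smul_eq_mul, smul_eq_mul, ← map_smul, ← mk_mul, ← mk_mul, ← map_smul, smul_mul_assoc]⟩

instance : SMulCommClass Φ (FreeAlt Φ X) (FreeAlt Φ X) := ⟨by
  intro r a b
  obtain ⟨a, rfl⟩ := mk_surj a
  obtain ⟨b, rfl⟩ := mk_surj b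
  rw [smul_eq_mul, smul_eq_mul, ← map_smul, ← mk_mul, ← mk_mul, ← map_smul, mul_smul_comm]⟩

lemma isAlt : IsAlt (FreeAlt Φ X) where
  left := by
    intro a b
    obtain ⟨a, rfl⟩ := mk_surj a
    obtain ⟨b, rfl⟩ := mk_surj b
    rw [← mk_mul, ← mk_mul, ← mk_mul, ← mk_mul, mk_eq]
    exact (altIdeal_alt a b).1
  right := by
    intro a b
    obtain ⟨a, rfl⟩ := mk_surj a
    obtain ⟨b, rfl⟩ := mk_surj b
    rw [← mk_mul, ← mk_mul, ← mk_mul, ← mk_mul, mk_eq]
    exact (altIdeal_alt a b).2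

/-- the generators -/
noncomputable def gen (x : X) : FreeAlt Φ X := mk (FreeNonUnitalNonAssocAlgebra.of Φ x)

section lift
variable {B : Type} [NonUnitalNonAssocRing B] [Module Φ B] [IsScalarTower Φ B B] [SMulCommClass Φ B B]

lemma lift_aux (hB : IsAlt B) (f : X → B) :
    altIdeal Φ X ≤ LinearMap.ker ((FreeNonUnitalNonAssocAlgebra.lift Φ f : FN Φ X →ₙₐ[Φ] B) : FN Φ X →ₗ[Φ] B) := by
  apply sInf_le
  refine ⟨fun a t ht => ?_, fun a b => ?_⟩
  · have ht' : (FreeNonUnitalNonAssocAlgebra.lift Φ f) t = 0 := ht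
    constructor
    · show (FreeNonUnitalNonAssocAlgebra.lift Φ f) (a * t) = 0
      rw [map_mul, ht', mul_zero]
    · show (FreeNonUnitalNonAssocAlgebra.lift Φ f) (t * a) = 0
      rw [map_mul, ht', zero_mul]
  · constructor
    · show (FreeNonUnitalNonAssocAlgebra.lift Φ f) _ = 0
      rw [map_sub, map_mul, map_mul, map_mul, map_mul, hB.left, sub_self]
    · show (FreeNonUnitalNonAssocAlgebra.lift Φ f) _ = 0
      rw [map_sub, map_mul, map_mul, map_mul, map_mul, hB.right, sub_self]

/-- the universal property: a map from `X` to an alternative algebra extends to a homomorphism -/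
noncomputable def lift (hB : IsAlt B) (f : X → B) : FreeAlt Φ X →ₙₐ[Φ] B where
  toFun := (altIdeal Φ X).liftQ _ (lift_aux hB f)
  map_smul' := fun r a => map_smul _ r a
  map_zero' := map_zero _
  map_add' := fun a b => map_add _ a b
  map_mul' := by
    intro a b
    obtain ⟨a, rfl⟩ := mk_surj a
    obtain ⟨b, rfl⟩ := mk_surj b
    exact map_mul (FreeNonUnitalNonAssocAlgebra.lift Φ f) a b

lemma lift_gen (hB : IsAlt B) (f : X → B) (x : X) : lift (Φ := Φ) hB f (gen x) = f x :=
  FreeNonUnitalNonAssocAlgebra.lift_of_apply Φ f x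

/-- uniqueness in the universal property -/
lemma hom_ext (g h : FreeAlt Φ X →ₙₐ[Φ] B) (hgh : ∀ x, g (gen x) = h (gen x)) : g = h := by
  let m : FN Φ X →ₙₐ[Φ] FreeAlt Φ X :=
    { toFun := fun a => mk a
      map_smul' := fun r a => map_smul mk r a
      map_zero' := map_zero mk
      map_add' := fun a b => map_add mk a b
      map_mul' := fun a b => mk_mul a b }
  have h1 : g.comp m = h.comp m := by
    apply FreeNonUnitalNonAssocAlgebra.hom_ext
    intro x
    exact hgh x
  ext a
  obtain ⟨a, rfl⟩ := mk_surj a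
  exact DFunLike.congr_fun h1 a

end lift
end FreeAlt

/-! ### Nucleus, ideals -/
section
variable (Φ : Type) [CommRing Φ] (A : Type) [NonUnitalNonAssocRing A] [Module Φ A] [IsScalarTower Φ A A]
  [SMulCommClass Φ A A]

/-- The nucleus (associative center): all `n` with `(n,a,b) = (a,n,b) = (a,b,n) = 0`. -/
def nucleus : Submodule Φ A where
  carrier := {n | ∀ a b : A, as n a b = 0 ∧ as a n b = 0 ∧ as a b n = 0}
  add_mem' := by
    intro m n hm hn a b
    refine ⟨?_, ?_, ?_⟩
    · rw [as_add1, (hm a b).1, (hn a b).1, add_zero]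
    · rw [as_add2, (hm a b).2.1, (hn a b).2.1, add_zero]
    · rw [as_add3, (hm a b).2.2, (hn a b).2.2, add_zero]
  zero_mem' := fun a b => ⟨as_z1 _ _, as_z2 _ _, as_z3 _ _⟩
  smul_mem' := by
    intro r n hn a b
    have h1 : as (r • n) a b = r • as n a b := by
      unfold as; simp only [smul_mul_assoc, smul_sub]
    have h2 : as a (r • n) b = r • as a n b := by
      unfold as; simp only [smul_mul_assoc, mul_smul_comm, smul_sub]
    have h3 : as a b (r • n) = r • as a b n := by
      unfold as; simp only [mul_smul_comm, smul_sub]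
    refine ⟨?_, ?_, ?_⟩
    · rw [h1, (hn a b).1, smul_zero]
    · rw [h2, (hn a b).2.1, smul_zero]
    · rw [h3, (hn a b).2.2, smul_zero]

/-- two-sided ideals of an algebra -/
def IsIdeal (I : Submodule Φ A) : Prop := ∀ a x : A, x ∈ I → a * x ∈ I ∧ x * a ∈ I

/-- the two-sided ideal generated by a set -/
def idealGen (S : Set A) : Submodule Φ A := sInf {I | IsIdeal Φ A I ∧ S ⊆ I}

/-- the ideal generated by all commutators `[n, t]` with `n` in the nucleus -/
def ZN : Submodule Φ A := idealGen Φ A {z | ∃ n ∈ nucleus Φ A, ∃ t : A, z = n * t - t * n}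

/-- the associator ideal -/
def Dideal : Submodule Φ A := idealGen Φ A {z | ∃ a b c : A, z = (a * b) * c - a * (b * c)}

/-- the largest ideal contained in the nucleus -/
def Uideal : Submodule Φ A := sSup {I | IsIdeal Φ A I ∧ I ≤ nucleus Φ A}

end

end Pool.Agent.Helper805.Nuc.Free
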