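import Pool.Agent.Helper805.Nuc.Sound7
import Pool.Agent.Helper805.Nuc.Ext
import Pool.Agent.Helper805.Nuc.NFun
set_option autoImplicit false
set_option linter.unusedSimpArgs false

/-! The Grassmann envelope of the 138-dimensional superalgebra. -/

namespace Pool.Agent.Helper805.Nuc.Model7
open Pool.Agent.Helper805.Nuc.SuperK Pool.Agent.Helper805.Nuc.Data7 Pool.Agent.Helper805.Nuc.Chk7
  Pool.Agent.Helper805.Nuc.Sound7 Pool.Agent.Helper805.Nuc.Ext Pool.Agent.Helper805.Nuc.Tens
  Pool.Agent.Helper805.Nuc.NFun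

/-- the exterior algebra -/
abbrev Lam := ExteriorAlgebra K (Fin 10 → K)

noncomputable abbrev Ex (l : List (Fin 10)) : Lam := E K 10 l

noncomputable def part (b : ℕ) : Submodule K Lam :=
  Submodule.span K {u | ∃ l : List (Fin 10), l.length % 2 = b ∧ u = Ex l}

lemma Ex_mem (l : List (Fin 10)) : Ex l ∈ part (l.length % 2) :=
  Submodule.subset_span ⟨l, rfl, rfl⟩

lemma part_mul {a b : ℕ} {u v : Lam} (hu : u ∈ part a) (hv : v ∈ part b) : u * v ∈ part ((a + b) % 2) := by
  induction hu using Submodule.span_induction with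
  | mem u hu =>
    obtain ⟨l, hl, rfl⟩ := hu
    induction hv using Submodule.span_induction with
    | mem v hv =>
      obtain ⟨l', hl', rfl⟩ := hv
      have h : Ex l * Ex l' = Ex (l ++ l') := (E_append K 10 l l').symm
      rw [h]
      have h2 := Ex_mem (l ++ l')
      have h3 : (l ++ l').length % 2 = (a + b) % 2 := by
        rw [List.length_append]; omega
      rwa [h3] at h2
    | zero => rw [mul_zero]; exact Submodule.zero_mem _
    | add x y _ _ hx hy => rw [mul_add]; exact Submodule.add_mem _ hx hy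
    | smul r x _ hx => rw [mul_smul_comm]; exact Submodule.smul_mem _ _ hx
  | zero => rw [zero_mul]; exact Submodule.zero_mem _
  | add x y _ _ hx hy => rw [add_mul]; exact Submodule.add_mem _ hx hy
  | smul r x _ hx => rw [smul_mul_assoc]; exact Submodule.smul_mem _ _ hx

lemma part_swap {a b : ℕ} {u v : Lam} (ha : a < 2) (hb : b < 2) (hu : u ∈ part a) (hv : v ∈ part b) :
    u * v = (if a * b = 1 then (-1 : K) else 1) • (v * u) := by
  induction hu using Submodule.span_induction with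
  | mem u hu =>
    obtain ⟨l, hl, rfl⟩ := hu
    induction hv using Submodule.span_induction with
    | mem v hv =>
      obtain ⟨l', hl', rfl⟩ := hv
      have h := E_swap K 10 l l'
      rw [h]
      split_ifs with hab
      · have h1 : a = 1 := Nat.eq_one_of_mul_eq_one_right hab
        have h2 : b = 1 := Nat.eq_one_of_mul_eq_one_left hab
        have : Odd (l.length * l'.length) :=
          (Nat.odd_iff.mpr (by omega)).mul (Nat.odd_iff.mpr (by omega))
        rw [this.neg_one_pow, neg_one_smul, neg_one_mul]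
      · have : Even (l.length * l'.length) := by
          rcases Nat.lt_or_ge 0 a with h1 | h1
          · rcases Nat.lt_or_ge 0 b with h2 | h2
            · have h3 : a = 1 := by omega
              have h4 : b = 1 := by omega
              rw [h3, h4] at hab
              exact absurd rfl hab
            · exact (Nat.even_iff.mpr (by omega)).mul_left _
          · exact (Nat.even_iff.mpr (by omega)).mul_right _
        rw [this.neg_one_pow, one_smul, one_mul]
    | zero => rw [mul_zero, zero_mul, smul_zero]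
    | add x y _ _ hx hy => rw [mul_add, add_mul, smul_add, hx, hy]
    | smul r x _ hx => rw [mul_smul_comm, smul_mul_assoc, hx, smul_comm]
  | zero => rw [mul_zero, zero_mul, smul_zero]
  | add x y _ _ hx hy => rw [mul_add, add_mul, smul_add, hx, hy]
  | smul r x _ hx => rw [mul_smul_comm, smul_mul_assoc, hx, smul_comm]

noncomputable def G0 : SuperRing K Lam where
  part := part
  mul_mem := part_mul
  swap := part_swap

/-- the ambient algebra -/
def R : Type := Fin D0.N → Lam

namespace R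
noncomputable instance : AddCommGroup R := inferInstanceAs (AddCommGroup (Fin D0.N → Lam))
noncomputable instance : Module K R := inferInstanceAs (Module K (Fin D0.N → Lam))
noncomputable instance : Mul R := ⟨fun v w => rmul (K := K) (D := D0) v w⟩

lemma mul_def (v w : R) : v * w = rmul (K := K) (D := D0) v w := rfl

noncomputable instance : NonUnitalNonAssocRing R where
  left_distrib := fun a b c => rmul_add a b c
  right_distrib := fun a b c => add_rmul a b c
  zero_mul := by
    intro a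
    have h2 := smul_rmul (D := D0) (0 : K) (0 : Fin D0.N → Lam) a
    rw [zero_smul, zero_smul] at h2
    exact h2
  mul_zero := by
    intro a
    have h2 := rmul_smul (D := D0) (0 : K) a (0 : Fin D0.N → Lam)
    rw [zero_smul, zero_smul] at h2
    exact h2

instance : IsScalarTower K R R := ⟨fun r a b => smul_rmul r a b⟩
instance : SMulCommClass K R R := ⟨fun r a b => (rmul_smul r a b).symm⟩
end R

lemma two_ne : (2 : K) ≠ 0 := by decide

/-- the Grassmann envelope as a subalgebra -/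
noncomputable def BS : NonUnitalSubalgebra K R where
  carrier := {v | v ∈ env G0 D0}
  add_mem' := fun ha hb => (env G0 D0).add_mem ha hb
  zero_mem' := (env G0 D0).zero_mem
  mul_mem' := fun ha hb => rmul_mem G0 good ha hb
  smul_mem' := fun r _ ha => (env G0 D0).smul_mem r ha

lemma BS_alt : IsAlt BS where
  left := by
    intro x y
    apply Subtype.ext
    funext l
    exact left_alt G0 two_ne good (x.2) l
  right := by
    intro x y
    apply Subtype.ext
    funext l
    exact right_alt G0 two_ne good (x.2) l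

/-- sparse tensors -/
noncomputable def tl (L : List (ℕ × ℕ)) (u : Lam) : R := fun k => cf K k L • u

/-- product of sparse vectors -/
noncomputable def mulL (L L' : List (ℕ × ℕ)) : List (ℕ × ℕ) :=
  bindR 1 (fun i => bindR 1 (fun j => T i j) L' []) L []

/-- combine equal keys and reduce -/
noncomputable def nrm (n : ℕ) : List (ℕ × ℕ) → List (ℕ × ℕ) :=
  Nat.rec (fun L => L)
    (fun _ f L => List.rec [] (fun q M _ => (q.1, Nat.mod (Nat.add q.2 (ksum q.1 M)) 7) :: f (krem q.1 M)) L) n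

/-- keys are indices -/
def Ok (L : List (ℕ × ℕ)) : Prop := ∀ p ∈ L, p.1 < 138

lemma ok_nil : Ok [] := by intro p hp; simp at hp

lemma ok_axpy (a : ℕ) {M tail : List (ℕ × ℕ)} (hM : Ok M) (ht : Ok tail) : Ok (axpy a M tail) := by
  induction M with
  | nil => exact ht
  | cons q M ih =>
    have h : axpy a (q :: M) tail = (q.1, Nat.mul a q.2) :: axpy a M tail := rfl
    rw [h]
    intro p hp
    rcases List.mem_cons.mp hp with h1 | h1
    · rw [h1]; exact hM q (by simp)
    · exact ih (fun p hp => hM p (by simp [hp])) p h1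

lemma ok_bindR (a : ℕ) (f : ℕ → List (ℕ × ℕ)) {L tail : List (ℕ × ℕ)} (hf : ∀ q ∈ L, Ok (f q.1)) (ht : Ok tail) :
    Ok (bindR a f L tail) := by
  induction L with
  | nil => exact ht
  | cons q L ih =>
    have h : bindR a f (q :: L) tail = axpy (Nat.mul a q.2) (f q.1) (bindR a f L tail) := rfl
    rw [h]
    exact ok_axpy _ (hf q (by simp)) (ih (fun q hq => hf q (by simp [hq])))

lemma ok_T {i j : ℕ} (hi : i < 138) (hj : j < 138) : Ok (T i j) := fun _ hp => (grade hi hj hp).1

lemma ok_mulL {L L' : List (ℕ × ℕ)} (h : Ok L) (h' : Ok L') : Ok (mulL L L') :=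
  ok_bindR _ _ (fun q hq => ok_bindR _ _ (fun q' hq' => ok_T (h q hq) (h' q' hq')) ok_nil) ok_nil

lemma ok_krem (k : ℕ) {L : List (ℕ × ℕ)} (h : Ok L) : Ok (krem k L) := by
  induction L with
  | nil => exact h
  | cons q L ih =>
    have h1 : krem k (q :: L) = cond (Nat.beq q.1 k) (krem k L) (q :: krem k L) := rfl
    rw [h1]
    have h2 := ih (fun p hp => h p (by simp [hp]))
    cases Nat.beq q.1 k
    · intro p hp
      rcases List.mem_cons.mp hp with h3 | h3
      · rw [h3]; exact h q (by simp)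
      · exact h2 p h3
    · exact h2

lemma ok_nrm (n : ℕ) : ∀ {L : List (ℕ × ℕ)}, Ok L → Ok (nrm n L) := by
  induction n with
  | zero => intro L h; exact h
  | succ n ih =>
    intro L h
    cases L with
    | nil => exact ok_nil
    | cons q M =>
      have h1 : nrm (n + 1) (q :: M) = (q.1, Nat.mod (Nat.add q.2 (ksum q.1 M)) 7) :: nrm n (krem q.1 M) := rfl
      rw [h1]
      intro p hp
      rcases List.mem_cons.mp hp with h3 | h3
      · rw [h3]; exact h q (by simp)
      · exact ih (ok_krem _ (fun p hp => h p (by simp [hp]))) p h3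

lemma cast_mod (m : ℕ) : ((Nat.mod m 7 : ℕ) : K) = (m : K) := by
  have h : Nat.mod m 7 = m % 7 := rfl
  rw [h]
  exact ZMod.natCast_mod m 7

lemma cf_nrm (n : ℕ) (k : ℕ) : ∀ L : List (ℕ × ℕ), cf K k (nrm n L) = cf K k L := by
  induction n with
  | zero => intro L; rfl
  | succ n ih =>
    intro L
    cases L with
    | nil => rfl
    | cons q M =>
      have h1 : nrm (n + 1) (q :: M) = (q.1, Nat.mod (Nat.add q.2 (ksum q.1 M)) 7) :: nrm n (krem q.1 M) := rfl
      rw [h1, cf, cf, ih, cf_krem]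
      simp only [cast_mod]
      have h2 : Nat.add q.2 (ksum q.1 M) = q.2 + ksum q.1 M := rfl
      rw [h2]
      by_cases hk : q.1 = k
      · subst hk
        simp only [if_true]
        rw [Nat.cast_add, ksum_eq]
        ring
      · have hk' : ¬ (k = q.1) := fun h => hk h.symm
        rw [if_neg hk, if_neg hk, if_neg hk']

lemma cf_bind_sum {L : List (ℕ × ℕ)} (hL : Ok L) (a : ℕ) (f : ℕ → List (ℕ × ℕ)) (k : ℕ) :
    cf K k (bindR a f L []) = (a : K) * ∑ i : Fin 138, cf K i L * cf K k (f i) := by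
  rw [cf_bindR]
  have h := sum_cf K (N := 138) L hL (fun i => cf K k (f i))
  simp only [smul_eq_mul] at h ⊢
  rw [← h]
  simp [cf]

lemma tl_mul {L L' : List (ℕ × ℕ)} (hL : Ok L) (hL' : Ok L') (u v : Lam) :
    tl L u * tl L' v = tl (mulL L L') (u * v) := by
  rw [R.mul_def]
  funext k
  show ∑ i : Fin 138, ∑ j : Fin 138, D0.c K i j k • ((cf K i L • u) * (cf K j L' • v)) = cf K k (mulL L L') • (u * v)
  have h2 : ∀ i j : Fin 138, D0.c K i j k • ((cf K i L • u) * (cf K j L' • v)) =
      (cf K i L * (cf K j L' * cf K k (T i j))) • (u * v) := by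
    intro i j
    rw [smul_mul_assoc, mul_smul_comm, smul_smul, smul_smul]
    congr 1
    show cf K k (T i j) * cf K i L * cf K j L' = _
    ring
  simp only [h2]
  unfold mulL
  rw [cf_bind_sum hL, Nat.cast_one, one_mul, Finset.sum_smul]
  refine Finset.sum_congr rfl fun i _ => ?_
  rw [cf_bind_sum hL', Nat.cast_one, one_mul, Finset.mul_sum, Finset.sum_smul]

lemma tl_congr {L L' : List (ℕ × ℕ)} (h : ∀ k, cf K k L = cf K k L') (u : Lam) : tl L u = tl L' u := by
  funext k
  show cf K k L • u = cf K k L' • u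
  rw [h k]

lemma tl_add (L L' : List (ℕ × ℕ)) (u : Lam) : tl L u + tl L' u = tl (L ++ L') u := by
  funext k
  show cf K k L • u + cf K k L' • u = cf K k (L ++ L') • u
  rw [cf_append, add_smul]

lemma tl_smul (a : ℕ) (L : List (ℕ × ℕ)) (u : Lam) : tl (axpy a L []) u = (a : K) • tl L u := by
  funext k
  show cf K k (axpy a L []) • u = (a : K) • (cf K k L • u)
  rw [cf_axpy, smul_smul]
  simp [cf]

lemma tl_neg (L : List (ℕ × ℕ)) (u : Lam) : tl (axpy 6 L []) u = - tl L u := by
  rw [tl_smul]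
  have : ((6 : ℕ) : K) = -1 := by decide
  rw [this, neg_one_smul]

lemma tl_negr (L : List (ℕ × ℕ)) (u : Lam) : tl L (-u) = - tl L u := by
  funext k
  show cf K k L • (-u) = -(cf K k L • u)
  rw [smul_neg]

lemma tl_zsmulr (L : List (ℕ × ℕ)) (m : ℤ) (u : Lam) : tl L (m • u) = m • tl L u := by
  funext k
  show cf K k L • (m • u) = m • (cf K k L • u)
  rw [smul_comm]

lemma tl_zsmul (m : ℤ) (a : ℕ) (h : (m : K) = (a : K)) (L : List (ℕ × ℕ)) (u : Lam) :
    m • tl L u = tl (axpy a L []) u := by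
  rw [tl_smul, ← h, Int.cast_smul_eq_zsmul]

lemma tl_nrm (n : ℕ) (L : List (ℕ × ℕ)) (u : Lam) : tl (nrm n L) u = tl L u :=
  tl_congr (fun k => cf_nrm n k L) u

/-- `L L' + a L' L` -/
noncomputable def sB (a : ℕ) (L L' : List (ℕ × ℕ)) : List (ℕ × ℕ) :=
  nrm 40 (mulL L L' ++ axpy a (mulL L' L) [])

noncomputable def asL (L L' L'' : List (ℕ × ℕ)) : List (ℕ × ℕ) :=
  nrm 40 (mulL (mulL L L') L'' ++ axpy 6 (mulL L (mulL L' L'')) [])

lemma ok_append {L L' : List (ℕ × ℕ)} (h : Ok L) (h' : Ok L') : Ok (L ++ L') := by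
  intro p hp
  rcases List.mem_append.mp hp with h1 | h1
  · exact h p h1
  · exact h' p h1

lemma ok_sB (a : ℕ) {L L' : List (ℕ × ℕ)} (h : Ok L) (h' : Ok L') : Ok (sB a L L') :=
  ok_nrm _ (ok_append (ok_mulL h h') (ok_axpy _ (ok_mulL h' h) ok_nil))

lemma ok_asL {L L' L'' : List (ℕ × ℕ)} (h : Ok L) (h' : Ok L') (h'' : Ok L'') : Ok (asL L L' L'') :=
  ok_nrm _ (ok_append (ok_mulL (ok_mulL h h') h'') (ok_axpy _ (ok_mulL h (ok_mulL h' h'')) ok_nil))

lemma Ex_append (l l' : List (Fin 10)) : Ex (l ++ l') = Ex l * Ex l' := E_append K 10 l l'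

lemma Ex_swap_even (l l' : List (Fin 10)) (h : Even (l.length * l'.length)) : Ex l * Ex l' = Ex l' * Ex l := by
  have := E_swap K 10 l l'
  rw [h.neg_one_pow, one_mul] at this
  exact this

lemma Ex_swap_odd (l l' : List (Fin 10)) (h : Odd (l.length * l'.length)) : Ex l * Ex l' = - (Ex l' * Ex l) := by
  have := E_swap K 10 l l'
  rw [h.neg_one_pow, neg_one_mul] at this
  exact this

lemma br_odd {L L' : List (ℕ × ℕ)} (h : Ok L) (h' : Ok L') (l l' : List (Fin 10)) (hl : Odd (l'.length * l.length)) :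
    br (tl L (Ex l)) (tl L' (Ex l')) = tl (sB 1 L L') (Ex (l ++ l')) := by
  unfold br sB
  rw [tl_mul h h', tl_mul h' h, Ex_swap_odd l' l hl, tl_negr, sub_neg_eq_add, tl_nrm, ← tl_add, tl_smul,
    Ex_append, Nat.cast_one, one_smul]

lemma br_even {L L' : List (ℕ × ℕ)} (h : Ok L) (h' : Ok L') (l l' : List (Fin 10)) (hl : Even (l'.length * l.length)) :
    br (tl L (Ex l)) (tl L' (Ex l')) = tl (sB 6 L L') (Ex (l ++ l')) := by
  unfold br sB
  rw [tl_mul h h', tl_mul h' h, Ex_swap_even l' l hl, tl_nrm, ← tl_add, tl_neg, Ex_append, sub_eq_add_neg]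

lemma jo_even {L L' : List (ℕ × ℕ)} (h : Ok L) (h' : Ok L') (l l' : List (Fin 10)) (hl : Even (l'.length * l.length)) :
    jo (tl L (Ex l)) (tl L' (Ex l')) = tl (sB 1 L L') (Ex (l ++ l')) := by
  unfold jo sB
  rw [tl_mul h h', tl_mul h' h, Ex_swap_even l' l hl, tl_nrm, ← tl_add, tl_smul, Ex_append, Nat.cast_one, one_smul]

lemma as_tl {L L' L'' : List (ℕ × ℕ)} (h : Ok L) (h' : Ok L') (h'' : Ok L'') (l l' l'' : List (Fin 10)) :
    as (tl L (Ex l)) (tl L' (Ex l')) (tl L'' (Ex l'')) = tl (asL L L' L'') (Ex (l ++ l' ++ l'')) := by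
  unfold as asL
  rw [tl_mul h h', tl_mul (ok_mulL h h') h'', tl_mul h' h'', tl_mul h (ok_mulL h' h''), tl_nrm, ← tl_add, tl_neg,
    Ex_append, Ex_append, sub_eq_add_neg, mul_assoc]

/-- the value of `Fp` on six odd arguments -/
noncomputable def FsL (L1 L2 L3 L4 L5 L6 : List (ℕ × ℕ)) : List (ℕ × ℕ) :=
  nrm 40 ((axpy 3 (sB 6 (sB 1 L1 L6) (sB 1 (sB 1 L2 L3) (sB 1 L4 L5))) [] ++
    axpy 8 (sB 1 (sB 1 L1 (asL L2 L3 L4)) (sB 1 L5 L6)) []) ++
    axpy 6 (sB 1 (sB 1 L6 (asL L1 L2 L3)) (sB 1 L4 L5)) [])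

lemma Fp_tl {L1 L2 L3 L4 L5 L6 : List (ℕ × ℕ)} (h1 : Ok L1) (h2 : Ok L2) (h3 : Ok L3) (h4 : Ok L4) (h5 : Ok L5)
    (h6 : Ok L6) (k1 k2 k3 k4 k5 k6 : Fin 10) :
    Fp (tl L1 (Ex [k1])) (tl L2 (Ex [k2])) (tl L3 (Ex [k3])) (tl L4 (Ex [k4])) (tl L5 (Ex [k5])) (tl L6 (Ex [k6])) =
      tl (FsL L1 L2 L3 L4 L5 L6) (Ex [k1, k2, k3, k4, k5, k6]) := by
  unfold Fp FsL
  rw [br_odd h1 h6 [k1] [k6] (show Odd (1 * 1) by decide), br_odd h2 h3 [k2] [k3] (show Odd (1 * 1) by decide),
    br_odd h4 h5 [k4] [k5] (show Odd (1 * 1) by decide), as_tl h2 h3 h4, br_odd h5 h6 [k5] [k6] (show Odd (1 * 1) by decide),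
    as_tl h1 h2 h3]
  simp only [List.append_nil, List.nil_append, List.cons_append]
  rw [jo_even (ok_sB 1 h2 h3) (ok_sB 1 h4 h5) [k2, k3] [k4, k5] (show Even (2 * 2) by decide),
    br_odd h1 (ok_asL h2 h3 h4) [k1] [k2, k3, k4] (show Odd (3 * 1) by decide),
    br_odd h6 (ok_asL h1 h2 h3) [k6] [k1, k2, k3] (show Odd (3 * 1) by decide)]
  simp only [List.append_nil, List.nil_append, List.cons_append]
  rw [br_even (ok_sB 1 h1 h6) (ok_sB 1 (ok_sB 1 h2 h3) (ok_sB 1 h4 h5)) [k1, k6] [k2, k3, k4, k5] (show Even (4 * 2) by decide),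
    jo_even (ok_sB 1 h1 (ok_asL h2 h3 h4)) (ok_sB 1 h5 h6) [k1, k2, k3, k4] [k5, k6] (show Even (2 * 4) by decide),
    jo_even (ok_sB 1 h6 (ok_asL h1 h2 h3)) (ok_sB 1 h4 h5) [k6, k1, k2, k3] [k4, k5] (show Even (2 * 4) by decide)]
  simp only [List.append_nil, List.nil_append, List.cons_append]
  have e1 : Ex [k1, k6, k2, k3, k4, k5] = Ex [k1, k2, k3, k4, k5, k6] := by
    have a1 : Ex [k1, k6, k2, k3, k4, k5] = Ex [k1] * (Ex [k6] * Ex [k2, k3, k4, k5]) := by
      rw [← Ex_append, ← Ex_append]; rfl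
    have a2 : Ex [k1, k2, k3, k4, k5, k6] = Ex [k1] * (Ex [k2, k3, k4, k5] * Ex [k6]) := by
      rw [← Ex_append, ← Ex_append]; rfl
    rw [a1, a2, Ex_swap_even [k6] [k2, k3, k4, k5] (show Even (1 * 4) by decide)]
  have e2 : Ex [k6, k1, k2, k3, k4, k5] = - Ex [k1, k2, k3, k4, k5, k6] := by
    have a1 : Ex [k6, k1, k2, k3, k4, k5] = Ex [k6] * Ex [k1, k2, k3, k4, k5] := by
      rw [← Ex_append]; rfl
    have a2 : Ex [k1, k2, k3, k4, k5, k6] = Ex [k1, k2, k3, k4, k5] * Ex [k6] := by
      rw [← Ex_append]; rfl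
    rw [a1, a2, Ex_swap_odd [k6] [k1, k2, k3, k4, k5] (show Odd (1 * 5) by decide)]
  rw [e1, e2, tl_nrm, ← tl_add, ← tl_add, tl_negr, tl_zsmul 3 3 (by decide), tl_zsmul 8 8 (by decide)]
  congr 1
  rw [smul_neg, ← tl_zsmul (-8) 6 (by decide), neg_smul]

/-- the two basic vectors -/
def bv (b : Bool) : List (ℕ × ℕ) := cond b [(1, 1)] [(0, 1)]

lemma ok_bv (b : Bool) : Ok (bv b) := by
  cases b
  · intro p hp
    have : p = (0, 1) := by simpa [bv] using hp
    rw [this]; norm_num
  · intro p hp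
    have : p = (1, 1) := by simpa [bv] using hp
    rw [this]; norm_num

/-- code of a permutation -/
def code (σ : Equiv.Perm (Fin 5)) : List Bool :=
  [decide (3 ≤ (σ 0).val), decide (3 ≤ (σ 1).val), decide (3 ≤ (σ 2).val), decide (3 ≤ (σ 3).val), decide (3 ≤ (σ 4).val)]

noncomputable def FsC : List Bool → List (ℕ × ℕ)
  | [a, b, c, d, e] => FsL (bv a) (bv b) (bv c) (bv d) (bv e) (bv false)
  | _ => []

def words : List (List Bool) :=
  [[true, true, false, false, false], [true, false, true, false, false], [true, false, false, true, false],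
   [true, false, false, false, true], [false, true, true, false, false], [false, true, false, true, false],
   [false, true, false, false, true], [false, false, true, true, false], [false, false, true, false, true],
   [false, false, false, true, true]]

lemma codes_eq : (Finset.univ : Finset (Equiv.Perm (Fin 5))).val.map code =
    ((words.flatMap (fun w => List.replicate 12 w) : List (List Bool)) : Multiset (List Bool)) := by
  decide +kernel

/-- the value of the alternating sum -/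
noncomputable def n6L : List (ℕ × ℕ) :=
  nrm 40 (List.rec [] (fun w _ ih => axpy 12 (FsC w) ih) words)

lemma ok_FsL {L1 L2 L3 L4 L5 L6 : List (ℕ × ℕ)} (h1 : Ok L1) (h2 : Ok L2) (h3 : Ok L3) (h4 : Ok L4) (h5 : Ok L5)
    (h6 : Ok L6) : Ok (FsL L1 L2 L3 L4 L5 L6) :=
  ok_nrm _ (ok_append (ok_append
    (ok_axpy _ (ok_sB _ (ok_sB _ h1 h6) (ok_sB _ (ok_sB _ h2 h3) (ok_sB _ h4 h5))) ok_nil)
    (ok_axpy _ (ok_sB _ (ok_sB _ h1 (ok_asL h2 h3 h4)) (ok_sB _ h5 h6)) ok_nil))
    (ok_axpy _ (ok_sB _ (ok_sB _ h6 (ok_asL h1 h2 h3)) (ok_sB _ h4 h5)) ok_nil))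

lemma ok_FsC (w : List Bool) : Ok (FsC w) := by
  match w with
  | [a, b, c, d, e] => exact ok_FsL (ok_bv _) (ok_bv _) (ok_bv _) (ok_bv _) (ok_bv _) (ok_bv _)
  | [] => exact ok_nil
  | [_] => exact ok_nil
  | [_, _] => exact ok_nil
  | [_, _, _] => exact ok_nil
  | [_, _, _, _] => exact ok_nil
  | _ :: _ :: _ :: _ :: _ :: _ :: _ => exact ok_nil

lemma ok_sum (ws : List (List Bool)) : Ok (List.rec [] (fun w _ ih => axpy 12 (FsC w) ih) ws : List (ℕ × ℕ)) := by
  induction ws with
  | nil => exact ok_nil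
  | cons w ws ih => exact ok_axpy _ (ok_FsC w) ih

lemma ok_n6L : Ok n6L := ok_nrm _ (ok_sum words)

lemma cf_sum (ws : List (List Bool)) (k : ℕ) :
    cf K k (List.rec [] (fun w _ ih => axpy 12 (FsC w) ih) ws : List (ℕ × ℕ)) =
      ((ws.flatMap (fun w => List.replicate 12 w)).map (fun w => cf K k (FsC w))).sum := by
  induction ws with
  | nil => rfl
  | cons w ws ih =>
    rw [List.flatMap_cons, List.map_append, List.sum_append, ← ih, List.map_replicate, List.sum_replicate]
    show cf K k (axpy 12 (FsC w) _) = _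
    rw [cf_axpy, nsmul_eq_mul]

lemma sum_codes (k : ℕ) : ∑ σ : Equiv.Perm (Fin 5), cf K k (FsC (code σ)) = cf K k n6L := by
  unfold n6L
  rw [cf_nrm, cf_sum]
  have h : ∑ σ : Equiv.Perm (Fin 5), cf K k (FsC (code σ)) =
      (((Finset.univ : Finset (Equiv.Perm (Fin 5))).val.map code).map (fun w => cf K k (FsC w))).sum := by
    rw [Multiset.map_map]; rfl
  rw [h, codes_eq, Multiset.map_coe, Multiset.sum_coe]

/-- the generic vectors in the ambient algebra -/
noncomputable def vv (i : Fin 10) : R := tl (bv (decide (i = 3 ∨ i = 4))) (Ex [i])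

lemma nf_vv : nf (fun i : Fin 5 => vv (Fin.castLE (by norm_num) i)) (vv 5) = tl n6L (Ex [0, 1, 2, 3, 4, 5]) := by
  unfold nf
  have h1 : ∀ σ : Equiv.Perm (Fin 5), ((Equiv.Perm.sign σ : ℤˣ) : ℤ) •
      Fp (vv (Fin.castLE (by norm_num) (σ 0))) (vv (Fin.castLE (by norm_num) (σ 1))) (vv (Fin.castLE (by norm_num) (σ 2)))
        (vv (Fin.castLE (by norm_num) (σ 3))) (vv (Fin.castLE (by norm_num) (σ 4))) (vv 5) =
      tl (FsC (code σ)) (Ex [0, 1, 2, 3, 4, 5]) := by
    intro σ
    have h2 : ∀ i : Fin 5, vv (Fin.castLE (by norm_num) i) = tl (bv (decide (3 ≤ i.val))) (Ex [Fin.castLE (by norm_num) i]) := by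
      intro i
      unfold vv
      congr 2
      fin_cases i <;> decide
    have h3 : vv 5 = tl (bv false) (Ex [5]) := by
      unfold vv
      congr 2
    rw [h2, h2, h2, h2, h2, h3, Fp_tl (ok_bv _) (ok_bv _) (ok_bv _) (ok_bv _) (ok_bv _) (ok_bv _)]
    have h4 : Ex [Fin.castLE (by norm_num) (σ 0), Fin.castLE (by norm_num) (σ 1), Fin.castLE (by norm_num) (σ 2),
        Fin.castLE (by norm_num) (σ 3), Fin.castLE (by norm_num) (σ 4), 5] =
        ((Equiv.Perm.sign σ : ℤˣ) : ℤ) • Ex [0, 1, 2, 3, 4, 5] := by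
      have a1 : Ex [Fin.castLE (by norm_num) (σ 0), Fin.castLE (by norm_num) (σ 1), Fin.castLE (by norm_num) (σ 2),
        Fin.castLE (by norm_num) (σ 3), Fin.castLE (by norm_num) (σ 4), 5] =
          Ex (List.ofFn (fun i => (fun j : Fin 5 => (Fin.castLE (by norm_num) j : Fin 10)) (σ i))) * Ex [5] := by
        rw [← Ex_append]
        simp [List.ofFn_succ]
      have a2 : Ex [0, 1, 2, 3, 4, 5] =
          Ex (List.ofFn (fun j : Fin 5 => (Fin.castLE (by norm_num) j : Fin 10))) * Ex [5] := by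
        rw [← Ex_append]
        simp [List.ofFn_succ]
      rw [a1, a2]
      have a3 := E_perm K 10 5 (fun j : Fin 5 => (Fin.castLE (by norm_num) j : Fin 10)) σ
      show E K 10 _ * _ = _
      rw [a3, smul_mul_assoc]
    rw [h4, tl_zsmulr, smul_smul]
    have : ((Equiv.Perm.sign σ : ℤˣ) : ℤ) * ((Equiv.Perm.sign σ : ℤˣ) : ℤ) = 1 := by
      rw [← Units.val_mul, Int.units_mul_self]; rfl
    rw [this, one_smul]
    rfl
  rw [Finset.sum_congr rfl (fun σ _ => h1 σ)]
  funext k
  have h5 : (∑ σ : Equiv.Perm (Fin 5), tl (FsC (code σ)) (Ex [0, 1, 2, 3, 4, 5])) k =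
      ∑ σ : Equiv.Perm (Fin 5), (cf K k (FsC (code σ)) • Ex [0, 1, 2, 3, 4, 5]) := by
    exact Finset.sum_apply k _ _
  rw [h5, ← Finset.sum_smul, sum_codes]
  rfl

/-- the final vector -/
noncomputable def Gfin : List (ℕ × ℕ) := mulL (sB 6 n6L (bv false)) (asL (bv false) (bv false) (bv false))

lemma Gfin_ne : Nat.beq (Nat.mod (ksum 137 Gfin) 7) 0 = false := by decide +kernel

end Pool.Agent.Helper805.Nuc.Model7
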