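import Pool.Agent.Helper805.Nuc.Chk7
set_option autoImplicit false

/-! The kernel checks, in pieces that need little memory. -/

namespace Pool.Agent.Helper805.Nuc.Piece7
open Pool.Agent.Helper805.Nuc.SuperK Pool.Agent.Helper805.Nuc.Data7 Pool.Agent.Helper805.Nuc.Chk7

lemma all_app {α : Type} (f : α → Bool) (l l' : List α) (h : l.all f = true) (h' : l'.all f = true) :
    (l ++ l').all f = true := by
  rw [List.all_append, h, h']; rfl

def cs0 : List (ℕ × ℕ × List ℕ) := [(1, 0, [0]), (0, 1, [1]), (2, 0, [2])]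
def cs1 : List (ℕ × ℕ × List ℕ) := [(1, 1, [3, 4]), (0, 2, [5]), (3, 0, [6, 7])]
def cs2 : List (ℕ × ℕ × List ℕ) := [(2, 1, [8, 9, 10, 11]), (1, 2, [12, 13]), (4, 0, [14, 15, 16])]
def cs3 : List (ℕ × ℕ × List ℕ) := [(3, 1, [17, 18, 19, 20, 21, 22, 23, 24]), (2, 2, [25, 26, 27, 28, 29, 30]), (5, 0, [31, 32, 33, 34]), (4, 1, [35, 36, 37, 38, 39, 40, 41, 42, 43, 44, 45, 46, 47, 48])]
def cs4 : List (ℕ × ℕ × List ℕ) := [(3, 2, [49, 50, 51, 52, 53, 54, 55, 56, 57]), (6, 0, [58, 59, 60, 61]), (5, 1, [62, 63, 64, 65, 66, 67, 68, 69, 70, 71, 72, 73, 74, 75, 76, 77, 78, 79, 80]), (4, 2, [81, 82, 83, 84, 85, 86, 87, 88, 89, 90]), (7, 0, [91, 92, 93, 94]), (6, 1, [95, 96, 97, 98, 99, 100, 101, 102, 103, 104, 105, 106, 107, 108, 109, 110, 111, 112]), (5, 2, [113, 114, 115, 116, 117, 118, 119]), (8, 0, [120, 121]), (7, 1, [122, 123, 124, 125, 126, 127, 128]), (6, 2, [129, 130, 131, 132]), (8, 1, [133, 134]), (7, 2, [135, 136]), (8, 2, [137])]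

lemma comps_eq : comps = cs0 ++ (cs1 ++ (cs2 ++ (cs3 ++ (cs4)))) := rfl

theorem L0_0 : (cs0.all fun c2 => fL (1, 0, [0]) c2) = true := by decide +kernel
theorem L0_1 : (cs1.all fun c2 => fL (1, 0, [0]) c2) = true := by decide +kernel
theorem L0_2 : (cs2.all fun c2 => fL (1, 0, [0]) c2) = true := by decide +kernel
theorem L0_3 : (cs3.all fun c2 => fL (1, 0, [0]) c2) = true := by decide +kernel
theorem L0_4 : (cs4.all fun c2 => fL (1, 0, [0]) c2) = true := by decide +kernel
theorem L0 : (comps.all fun c2 => fL (1, 0, [0]) c2) = true := by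
  rw [comps_eq]
  exact all_app _ _ _ L0_0 (all_app _ _ _ L0_1 (all_app _ _ _ L0_2 (all_app _ _ _ L0_3 L0_4)))
theorem L1_0 : (cs0.all fun c2 => fL (0, 1, [1]) c2) = true := by decide +kernel
theorem L1_1 : (cs1.all fun c2 => fL (0, 1, [1]) c2) = true := by decide +kernel
theorem L1_2 : (cs2.all fun c2 => fL (0, 1, [1]) c2) = true := by decide +kernel
theorem L1_3 : (cs3.all fun c2 => fL (0, 1, [1]) c2) = true := by decide +kernel
theorem L1_4 : (cs4.all fun c2 => fL (0, 1, [1]) c2) = true := by decide +kernel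
theorem L1 : (comps.all fun c2 => fL (0, 1, [1]) c2) = true := by
  rw [comps_eq]
  exact all_app _ _ _ L1_0 (all_app _ _ _ L1_1 (all_app _ _ _ L1_2 (all_app _ _ _ L1_3 L1_4)))
theorem L2_0 : (cs0.all fun c2 => fL (2, 0, [2]) c2) = true := by decide +kernel
theorem L2_1 : (cs1.all fun c2 => fL (2, 0, [2]) c2) = true := by decide +kernel
theorem L2_2 : (cs2.all fun c2 => fL (2, 0, [2]) c2) = true := by decide +kernel
theorem L2_3 : (cs3.all fun c2 => fL (2, 0, [2]) c2) = true := by decide +kernel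
theorem L2_4 : (cs4.all fun c2 => fL (2, 0, [2]) c2) = true := by decide +kernel
theorem L2 : (comps.all fun c2 => fL (2, 0, [2]) c2) = true := by
  rw [comps_eq]
  exact all_app _ _ _ L2_0 (all_app _ _ _ L2_1 (all_app _ _ _ L2_2 (all_app _ _ _ L2_3 L2_4)))
theorem L3_0 : (cs0.all fun c2 => fL (1, 1, [3, 4]) c2) = true := by decide +kernel
theorem L3_1 : (cs1.all fun c2 => fL (1, 1, [3, 4]) c2) = true := by decide +kernel
theorem L3_2 : (cs2.all fun c2 => fL (1, 1, [3, 4]) c2) = true := by decide +kernel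
theorem L3_3 : (cs3.all fun c2 => fL (1, 1, [3, 4]) c2) = true := by decide +kernel
theorem L3_4 : (cs4.all fun c2 => fL (1, 1, [3, 4]) c2) = true := by decide +kernel
theorem L3 : (comps.all fun c2 => fL (1, 1, [3, 4]) c2) = true := by
  rw [comps_eq]
  exact all_app _ _ _ L3_0 (all_app _ _ _ L3_1 (all_app _ _ _ L3_2 (all_app _ _ _ L3_3 L3_4)))
theorem L4_0 : (cs0.all fun c2 => fL (0, 2, [5]) c2) = true := by decide +kernel
theorem L4_1 : (cs1.all fun c2 => fL (0, 2, [5]) c2) = true := by decide +kernel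
theorem L4_2 : (cs2.all fun c2 => fL (0, 2, [5]) c2) = true := by decide +kernel
theorem L4_3 : (cs3.all fun c2 => fL (0, 2, [5]) c2) = true := by decide +kernel
theorem L4_4 : (cs4.all fun c2 => fL (0, 2, [5]) c2) = true := by decide +kernel
theorem L4 : (comps.all fun c2 => fL (0, 2, [5]) c2) = true := by
  rw [comps_eq]
  exact all_app _ _ _ L4_0 (all_app _ _ _ L4_1 (all_app _ _ _ L4_2 (all_app _ _ _ L4_3 L4_4)))
theorem L5_0 : (cs0.all fun c2 => fL (3, 0, [6, 7]) c2) = true := by decide +kernel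
theorem L5_1 : (cs1.all fun c2 => fL (3, 0, [6, 7]) c2) = true := by decide +kernel
theorem L5_2 : (cs2.all fun c2 => fL (3, 0, [6, 7]) c2) = true := by decide +kernel
theorem L5_3 : (cs3.all fun c2 => fL (3, 0, [6, 7]) c2) = true := by decide +kernel
theorem L5_4 : (cs4.all fun c2 => fL (3, 0, [6, 7]) c2) = true := by decide +kernel
theorem L5 : (comps.all fun c2 => fL (3, 0, [6, 7]) c2) = true := by
  rw [comps_eq]
  exact all_app _ _ _ L5_0 (all_app _ _ _ L5_1 (all_app _ _ _ L5_2 (all_app _ _ _ L5_3 L5_4)))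
theorem L6_0 : (cs0.all fun c2 => fL (2, 1, [8, 9, 10, 11]) c2) = true := by decide +kernel
theorem L6_1 : (cs1.all fun c2 => fL (2, 1, [8, 9, 10, 11]) c2) = true := by decide +kernel
theorem L6_2 : (cs2.all fun c2 => fL (2, 1, [8, 9, 10, 11]) c2) = true := by decide +kernel
theorem L6_3 : (cs3.all fun c2 => fL (2, 1, [8, 9, 10, 11]) c2) = true := by decide +kernel
theorem L6_4 : (cs4.all fun c2 => fL (2, 1, [8, 9, 10, 11]) c2) = true := by decide +kernel
theorem L6 : (comps.all fun c2 => fL (2, 1, [8, 9, 10, 11]) c2) = true := by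
  rw [comps_eq]
  exact all_app _ _ _ L6_0 (all_app _ _ _ L6_1 (all_app _ _ _ L6_2 (all_app _ _ _ L6_3 L6_4)))
theorem L7_0 : (cs0.all fun c2 => fL (1, 2, [12, 13]) c2) = true := by decide +kernel
theorem L7_1 : (cs1.all fun c2 => fL (1, 2, [12, 13]) c2) = true := by decide +kernel
theorem L7_2 : (cs2.all fun c2 => fL (1, 2, [12, 13]) c2) = true := by decide +kernel
theorem L7_3 : (cs3.all fun c2 => fL (1, 2, [12, 13]) c2) = true := by decide +kernel
theorem L7_4 : (cs4.all fun c2 => fL (1, 2, [12, 13]) c2) = true := by decide +kernel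
theorem L7 : (comps.all fun c2 => fL (1, 2, [12, 13]) c2) = true := by
  rw [comps_eq]
  exact all_app _ _ _ L7_0 (all_app _ _ _ L7_1 (all_app _ _ _ L7_2 (all_app _ _ _ L7_3 L7_4)))
theorem L8 : (comps.all fun c2 => fL (4, 0, [14, 15, 16]) c2) = true := by decide +kernel
theorem L9 : (comps.all fun c2 => fL (3, 1, [17, 18, 19, 20, 21, 22, 23, 24]) c2) = true := by decide +kernel
theorem L10 : (comps.all fun c2 => fL (2, 2, [25, 26, 27, 28, 29, 30]) c2) = true := by decide +kernel
theorem L11 : (comps.all fun c2 => fL (5, 0, [31, 32, 33, 34]) c2) = true := by decide +kernel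
theorem L12 : (comps.all fun c2 => fL (4, 1, [35, 36, 37, 38, 39, 40, 41, 42, 43, 44, 45, 46, 47, 48]) c2) = true := by decide +kernel
theorem L13 : (comps.all fun c2 => fL (3, 2, [49, 50, 51, 52, 53, 54, 55, 56, 57]) c2) = true := by decide +kernel
theorem L14 : (comps.all fun c2 => fL (6, 0, [58, 59, 60, 61]) c2) = true := by decide +kernel
theorem L15 : (comps.all fun c2 => fL (5, 1, [62, 63, 64, 65, 66, 67, 68, 69, 70, 71, 72, 73, 74, 75, 76, 77, 78, 79, 80]) c2) = true := by decide +kernel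
theorem L16 : (comps.all fun c2 => fL (4, 2, [81, 82, 83, 84, 85, 86, 87, 88, 89, 90]) c2) = true := by decide +kernel
theorem L17 : (comps.all fun c2 => fL (7, 0, [91, 92, 93, 94]) c2) = true := by decide +kernel
theorem L18 : (comps.all fun c2 => fL (6, 1, [95, 96, 97, 98, 99, 100, 101, 102, 103, 104, 105, 106, 107, 108, 109, 110, 111, 112]) c2) = true := by decide +kernel
theorem L19 : (comps.all fun c2 => fL (5, 2, [113, 114, 115, 116, 117, 118, 119]) c2) = true := by decide +kernel
theorem L20 : (comps.all fun c2 => fL (8, 0, [120, 121]) c2) = true := by decide +kernel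
theorem L21 : (comps.all fun c2 => fL (7, 1, [122, 123, 124, 125, 126, 127, 128]) c2) = true := by decide +kernel
theorem L22 : (comps.all fun c2 => fL (6, 2, [129, 130, 131, 132]) c2) = true := by decide +kernel
theorem L23 : (comps.all fun c2 => fL (8, 1, [133, 134]) c2) = true := by decide +kernel
theorem L24 : (comps.all fun c2 => fL (7, 2, [135, 136]) c2) = true := by decide +kernel
theorem L25 : (comps.all fun c2 => fL (8, 2, [137]) c2) = true := by decide +kernel

theorem chkL_ok : chkL = true := by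
  unfold chkL
  rw [List.all_eq_true]
  intro c hc
  simp only [comps, List.mem_cons, List.not_mem_nil, or_false] at hc
  rcases hc with rfl | rfl | rfl | rfl | rfl | rfl | rfl | rfl | rfl | rfl | rfl | rfl | rfl | rfl | rfl | rfl | rfl | rfl | rfl | rfl | rfl | rfl | rfl | rfl | rfl | rfl
  · exact L0
  · exact L1
  · exact L2
  · exact L3
  · exact L4
  · exact L5
  · exact L6
  · exact L7
  · exact L8
  · exact L9
  · exact L10
  · exact L11
  · exact L12
  · exact L13
  · exact L14
  · exact L15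
  · exact L16
  · exact L17
  · exact L18
  · exact L19
  · exact L20
  · exact L21
  · exact L22
  · exact L23
  · exact L24
  · exact L25

theorem R0_0 : (cs0.all fun c2 => fR (1, 0, [0]) c2) = true := by decide +kernel
theorem R0_1 : (cs1.all fun c2 => fR (1, 0, [0]) c2) = true := by decide +kernel
theorem R0_2 : (cs2.all fun c2 => fR (1, 0, [0]) c2) = true := by decide +kernel
theorem R0_3 : (cs3.all fun c2 => fR (1, 0, [0]) c2) = true := by decide +kernel
theorem R0_4 : (cs4.all fun c2 => fR (1, 0, [0]) c2) = true := by decide +kernel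
theorem R0 : (comps.all fun c2 => fR (1, 0, [0]) c2) = true := by
  rw [comps_eq]
  exact all_app _ _ _ R0_0 (all_app _ _ _ R0_1 (all_app _ _ _ R0_2 (all_app _ _ _ R0_3 R0_4)))
theorem R1_0 : (cs0.all fun c2 => fR (0, 1, [1]) c2) = true := by decide +kernel
theorem R1_1 : (cs1.all fun c2 => fR (0, 1, [1]) c2) = true := by decide +kernel
theorem R1_2 : (cs2.all fun c2 => fR (0, 1, [1]) c2) = true := by decide +kernel
theorem R1_3 : (cs3.all fun c2 => fR (0, 1, [1]) c2) = true := by decide +kernel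
theorem R1_4 : (cs4.all fun c2 => fR (0, 1, [1]) c2) = true := by decide +kernel
theorem R1 : (comps.all fun c2 => fR (0, 1, [1]) c2) = true := by
  rw [comps_eq]
  exact all_app _ _ _ R1_0 (all_app _ _ _ R1_1 (all_app _ _ _ R1_2 (all_app _ _ _ R1_3 R1_4)))
theorem R2_0 : (cs0.all fun c2 => fR (2, 0, [2]) c2) = true := by decide +kernel
theorem R2_1 : (cs1.all fun c2 => fR (2, 0, [2]) c2) = true := by decide +kernel
theorem R2_2 : (cs2.all fun c2 => fR (2, 0, [2]) c2) = true := by decide +kernel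
theorem R2_3 : (cs3.all fun c2 => fR (2, 0, [2]) c2) = true := by decide +kernel
theorem R2_4 : (cs4.all fun c2 => fR (2, 0, [2]) c2) = true := by decide +kernel
theorem R2 : (comps.all fun c2 => fR (2, 0, [2]) c2) = true := by
  rw [comps_eq]
  exact all_app _ _ _ R2_0 (all_app _ _ _ R2_1 (all_app _ _ _ R2_2 (all_app _ _ _ R2_3 R2_4)))
theorem R3_0 : (cs0.all fun c2 => fR (1, 1, [3, 4]) c2) = true := by decide +kernel
theorem R3_1 : (cs1.all fun c2 => fR (1, 1, [3, 4]) c2) = true := by decide +kernel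
theorem R3_2 : (cs2.all fun c2 => fR (1, 1, [3, 4]) c2) = true := by decide +kernel
theorem R3_3 : (cs3.all fun c2 => fR (1, 1, [3, 4]) c2) = true := by decide +kernel
theorem R3_4 : (cs4.all fun c2 => fR (1, 1, [3, 4]) c2) = true := by decide +kernel
theorem R3 : (comps.all fun c2 => fR (1, 1, [3, 4]) c2) = true := by
  rw [comps_eq]
  exact all_app _ _ _ R3_0 (all_app _ _ _ R3_1 (all_app _ _ _ R3_2 (all_app _ _ _ R3_3 R3_4)))
theorem R4_0 : (cs0.all fun c2 => fR (0, 2, [5]) c2) = true := by decide +kernel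
theorem R4_1 : (cs1.all fun c2 => fR (0, 2, [5]) c2) = true := by decide +kernel
theorem R4_2 : (cs2.all fun c2 => fR (0, 2, [5]) c2) = true := by decide +kernel
theorem R4_3 : (cs3.all fun c2 => fR (0, 2, [5]) c2) = true := by decide +kernel
theorem R4_4 : (cs4.all fun c2 => fR (0, 2, [5]) c2) = true := by decide +kernel
theorem R4 : (comps.all fun c2 => fR (0, 2, [5]) c2) = true := by
  rw [comps_eq]
  exact all_app _ _ _ R4_0 (all_app _ _ _ R4_1 (all_app _ _ _ R4_2 (all_app _ _ _ R4_3 R4_4)))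
theorem R5_0 : (cs0.all fun c2 => fR (3, 0, [6, 7]) c2) = true := by decide +kernel
theorem R5_1 : (cs1.all fun c2 => fR (3, 0, [6, 7]) c2) = true := by decide +kernel
theorem R5_2 : (cs2.all fun c2 => fR (3, 0, [6, 7]) c2) = true := by decide +kernel
theorem R5_3 : (cs3.all fun c2 => fR (3, 0, [6, 7]) c2) = true := by decide +kernel
theorem R5_4 : (cs4.all fun c2 => fR (3, 0, [6, 7]) c2) = true := by decide +kernel
theorem R5 : (comps.all fun c2 => fR (3, 0, [6, 7]) c2) = true := by
  rw [comps_eq]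
  exact all_app _ _ _ R5_0 (all_app _ _ _ R5_1 (all_app _ _ _ R5_2 (all_app _ _ _ R5_3 R5_4)))
theorem R6_0 : (cs0.all fun c2 => fR (2, 1, [8, 9, 10, 11]) c2) = true := by decide +kernel
theorem R6_1 : (cs1.all fun c2 => fR (2, 1, [8, 9, 10, 11]) c2) = true := by decide +kernel
theorem R6_2 : (cs2.all fun c2 => fR (2, 1, [8, 9, 10, 11]) c2) = true := by decide +kernel
theorem R6_3 : (cs3.all fun c2 => fR (2, 1, [8, 9, 10, 11]) c2) = true := by decide +kernel
theorem R6_4 : (cs4.all fun c2 => fR (2, 1, [8, 9, 10, 11]) c2) = true := by decide +kernel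
theorem R6 : (comps.all fun c2 => fR (2, 1, [8, 9, 10, 11]) c2) = true := by
  rw [comps_eq]
  exact all_app _ _ _ R6_0 (all_app _ _ _ R6_1 (all_app _ _ _ R6_2 (all_app _ _ _ R6_3 R6_4)))
theorem R7_0 : (cs0.all fun c2 => fR (1, 2, [12, 13]) c2) = true := by decide +kernel
theorem R7_1 : (cs1.all fun c2 => fR (1, 2, [12, 13]) c2) = true := by decide +kernel
theorem R7_2 : (cs2.all fun c2 => fR (1, 2, [12, 13]) c2) = true := by decide +kernel
theorem R7_3 : (cs3.all fun c2 => fR (1, 2, [12, 13]) c2) = true := by decide +kernel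
theorem R7_4 : (cs4.all fun c2 => fR (1, 2, [12, 13]) c2) = true := by decide +kernel
theorem R7 : (comps.all fun c2 => fR (1, 2, [12, 13]) c2) = true := by
  rw [comps_eq]
  exact all_app _ _ _ R7_0 (all_app _ _ _ R7_1 (all_app _ _ _ R7_2 (all_app _ _ _ R7_3 R7_4)))
theorem R8 : (comps.all fun c2 => fR (4, 0, [14, 15, 16]) c2) = true := by decide +kernel
theorem R9 : (comps.all fun c2 => fR (3, 1, [17, 18, 19, 20, 21, 22, 23, 24]) c2) = true := by decide +kernel
theorem R10 : (comps.all fun c2 => fR (2, 2, [25, 26, 27, 28, 29, 30]) c2) = true := by decide +kernel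
theorem R11 : (comps.all fun c2 => fR (5, 0, [31, 32, 33, 34]) c2) = true := by decide +kernel
theorem R12 : (comps.all fun c2 => fR (4, 1, [35, 36, 37, 38, 39, 40, 41, 42, 43, 44, 45, 46, 47, 48]) c2) = true := by decide +kernel
theorem R13 : (comps.all fun c2 => fR (3, 2, [49, 50, 51, 52, 53, 54, 55, 56, 57]) c2) = true := by decide +kernel
theorem R14 : (comps.all fun c2 => fR (6, 0, [58, 59, 60, 61]) c2) = true := by decide +kernel
theorem R15 : (comps.all fun c2 => fR (5, 1, [62, 63, 64, 65, 66, 67, 68, 69, 70, 71, 72, 73, 74, 75, 76, 77, 78, 79, 80]) c2) = true := by decide +kernel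
theorem R16 : (comps.all fun c2 => fR (4, 2, [81, 82, 83, 84, 85, 86, 87, 88, 89, 90]) c2) = true := by decide +kernel
theorem R17 : (comps.all fun c2 => fR (7, 0, [91, 92, 93, 94]) c2) = true := by decide +kernel
theorem R18 : (comps.all fun c2 => fR (6, 1, [95, 96, 97, 98, 99, 100, 101, 102, 103, 104, 105, 106, 107, 108, 109, 110, 111, 112]) c2) = true := by decide +kernel
theorem R19 : (comps.all fun c2 => fR (5, 2, [113, 114, 115, 116, 117, 118, 119]) c2) = true := by decide +kernel
theorem R20 : (comps.all fun c2 => fR (8, 0, [120, 121]) c2) = true := by decide +kernel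
theorem R21 : (comps.all fun c2 => fR (7, 1, [122, 123, 124, 125, 126, 127, 128]) c2) = true := by decide +kernel
theorem R22 : (comps.all fun c2 => fR (6, 2, [129, 130, 131, 132]) c2) = true := by decide +kernel
theorem R23 : (comps.all fun c2 => fR (8, 1, [133, 134]) c2) = true := by decide +kernel
theorem R24 : (comps.all fun c2 => fR (7, 2, [135, 136]) c2) = true := by decide +kernel
theorem R25 : (comps.all fun c2 => fR (8, 2, [137]) c2) = true := by decide +kernel

theorem chkR_ok : chkR = true := by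
  unfold chkR
  rw [List.all_eq_true]
  intro c hc
  simp only [comps, List.mem_cons, List.not_mem_nil, or_false] at hc
  rcases hc with rfl | rfl | rfl | rfl | rfl | rfl | rfl | rfl | rfl | rfl | rfl | rfl | rfl | rfl | rfl | rfl | rfl | rfl | rfl | rfl | rfl | rfl | rfl | rfl | rfl | rfl
  · exact R0
  · exact R1
  · exact R2
  · exact R3
  · exact R4
  · exact R5
  · exact R6
  · exact R7
  · exact R8
  · exact R9
  · exact R10
  · exact R11
  · exact R12
  · exact R13
  · exact R14
  · exact R15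
  · exact R16
  · exact R17
  · exact R18
  · exact R19
  · exact R20
  · exact R21
  · exact R22
  · exact R23
  · exact R24
  · exact R25

end Pool.Agent.Helper805.Nuc.Piece7
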